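import Pool.Agent.Helper10.Lor.LOW8n
import Pool.Agent.Helper77.Lor.LOW8

set_option autoImplicit false

/-!
# Lower bound for the sum over the cusps with the weights `psi2`, lattice `U ⊕ E₈`
-/

namespace Pool.Agent.Helper10.Lor

open Pool.Agent.Helper77.Lor

theorem tsum_lower2 (hT : ∀ {v : E 8}, v ∈ E8 → T v ∈ OL E8) {ι : Type} [Fintype ι]
    (A : ι → Fin 8 → ℤ) (hA : Function.Injective A)
    (h1 : ∀ j, (∀ i, A j i % 2 = 0) ∨ (∀ i, A j i % 2 = 1))
    (h2 : ∀ j, (∑ i, A j i) % 4 = 0) {q : Pt 8} (hq : q ∈ UH 8) :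
    ENNReal.ofReal (G2 (1 / q.2) + ∑ j, G2 ((‖q.1 - hv (A j)‖ ^ 2 + q.2 ^ 2) / (2 * q.2))) ≤
      ∑' w : Orb E8, ENNReal.ofReal (G2 (uval w q)) := by
  let f : Option ι → Orb E8 := fun o => match o with
    | none => ⟨w0, w0_mem⟩
    | some j => ⟨wv (hv (A j)), wv_mem hT (hv_mem (h1 j) (h2 j))⟩
  have hf : Function.Injective f := by
    intro a b hab
    have hab' : (f a : LV 8) = f b := congrArg Subtype.val hab
    match a, b with
    | none, none => rfl
    | none, some j =>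
      exfalso
      have : (0 : ℝ) = 1 := congrArg Prod.fst hab'
      norm_num at this
    | some j, none =>
      exfalso
      have : (1 : ℝ) = 0 := congrArg Prod.fst hab'
      norm_num at this
    | some j, some k =>
      have : hv (A j) = hv (A k) := congrArg (fun x : LV 8 => x.2.2) hab'
      rw [hA (hv_inj this)]
  refine le_trans (le_of_eq ?_) (ENNReal.tsum_comp_le_tsum_of_injective hf _)
  rw [tsum_fintype, Fintype.sum_option]
  rw [ENNReal.ofReal_add (G2_nonneg _) (Finset.sum_nonneg (fun _ _ => G2_nonneg _)),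
    ENNReal.ofReal_sum_of_nonneg (fun _ _ => G2_nonneg _)]
  congr 1
  · change _ = ENNReal.ofReal (G2 (uval w0 q))
    rw [uval_w0']
  · refine Finset.sum_congr rfl (fun j _ => ?_)
    change _ = ENNReal.ofReal (G2 (uval (wv (hv (A j))) q))
    rw [uval_wv _ hq]

/-- near vertices, `213/200 ≤ U` -/
theorem near_sum {ι : Type} [Fintype ι] {r s U : ℝ} (h1 : 1 ≤ r) (hr2 : r ≤ 138 / 100)
    (hU : U = (1 + s + r ^ 2) / (2 * r)) (hU1 : 213 / 200 ≤ U) (hU2 : U ≤ r)
    (x : ι → ℝ) (hx0 : ∀ j, 0 ≤ x j) (hx1 : ∀ j, 1 / r ≤ U - x j)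
    (hxs : ∑ j, x j ≤ 1 / r) (hxq : ∑ j, x j ^ 2 = s / r ^ 2) :
    19739 / 1000 * (8 * ((213 / 100 * r - 1 - r ^ 2) / r ^ 2)) ≤ ∑ j, G2 (U - x j) := by
  have hr : 0 < r := by linarith
  have hd : 0 < U - 23 / 25 := by linarith
  have h69 : 50 / 69 ≤ 1 / r := by rw [div_le_div_iff₀ (by norm_num) hr]; linarith
  have k1 : ∀ j, 19739 / 1000 * (116 / 100 / (U - 23 / 25) *
      (x j ^ 2 - (U - 213 / 200) * x j)) ≤ G2 (U - x j) := by
    intro j
    refine le_trans (le_of_eq ?_) (G2_L2 hU1 (hU2.trans hr2) (h69.trans (hx1 j))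
      (by have := hx0 j; linarith))
    rw [show U - (U - x j) = x j by ring]
    field_simp
    ring
  refine le_trans ?_ (Finset.sum_le_sum fun j _ => k1 j)
  rw [← Finset.mul_sum, ← Finset.mul_sum, Finset.sum_sub_distrib, ← Finset.mul_sum, hxq]
  apply mul_le_mul_of_nonneg_left _ (by norm_num)
  refine (alg_II h1 hU hU1).trans ?_
  apply mul_le_mul_of_nonneg_left _ (by positivity)
  have : (U - 213 / 200) * ∑ j, x j ≤ (U - 213 / 200) * (1 / r) :=
    mul_le_mul_of_nonneg_left hxs (by linarith)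
  have e : (U - 213 / 200) / r = (U - 213 / 200) * (1 / r) := by ring
  rw [e]
  linarith

/-- near vertices, `U ≤ 213/200` and `∑ x = 1/r` -/
theorem near_sum' {ι : Type} [Fintype ι] {r s U : ℝ} (h1 : 1 ≤ r) (hr2 : r ≤ 138 / 100)
    (hU : U = (1 + s + r ^ 2) / (2 * r)) (hU1 : U ≤ 213 / 200)
    (x : ι → ℝ) (hx0 : ∀ j, 0 ≤ x j) (hx1 : ∀ j, 1 / r ≤ U - x j)
    (hxs : ∑ j, x j = 1 / r) (hxq : ∑ j, x j ^ 2 = s / r ^ 2) :
    19739 / 1000 * (8 * ((213 / 100 * r - 1 - r ^ 2) / r ^ 2)) ≤ ∑ j, G2 (U - x j) := by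
  have hr : 0 < r := by linarith
  have h69 : 50 / 69 ≤ 1 / r := by rw [div_le_div_iff₀ (by norm_num) hr]; linarith
  have k1 : ∀ j, 19739 / 1000 * (8 * (2 * (213 / 200 - U) * x j + x j ^ 2)) ≤ G2 (U - x j) := by
    intro j
    refine le_trans ?_ (G2_L1 (h69.trans (hx1 j)) (by have := hx0 j; linarith))
    nlinarith [sq_nonneg (213 / 200 - U)]
  refine le_trans (le_of_eq ?_) (Finset.sum_le_sum fun j _ => k1 j)
  rw [← Finset.mul_sum, ← Finset.mul_sum, Finset.sum_add_distrib, ← Finset.mul_sum, hxq, hxs, hU]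
  field_simp
  ring

/-- lower bound at a reduced point -/
theorem reduced2 (hT : ∀ {v : E 8}, v ∈ E8 → T v ∈ OL E8) {q : Pt 8} (hq : q ∈ UH 8)
    (hmin : ∀ w ∈ Orb E8, 1 / q.2 ≤ uval w q) {z : Fin 8 → ℝ} (hz : ∀ i, z i = q.1 i)
    (hcase : (|z 0 - 1| + |z 1| + |z 2| + |z 3| + |z 4| + |z 5| + |z 6| + |z 7| ≤ 1) ∨
       ∃ l : Fin 9 → ℝ, (∀ j, 0 ≤ l j) ∧ l 0 + l 1 + l 2 + l 3 + l 4 + l 5 + l 6 + l 7 + l 8 = 1 ∧
        z 0 = l 1 + l 2 + l 3 + l 4 + l 5 + l 6 + l 7 + l 8 / 2 ∧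
        z 1 = l 1 + l 8 / 2 ∧ z 2 = l 2 + l 8 / 2 ∧ z 3 = l 3 + l 8 / 2 ∧ z 4 = l 4 + l 8 / 2 ∧
        z 5 = l 5 + l 8 / 2 ∧ z 6 = l 6 + l 8 / 2 ∧ z 7 = l 7 + l 8 / 2) :
    ENNReal.ofReal (18736 / 1000) ≤ ∑' w : Orb E8, ENNReal.ofReal (G2 (uval w q)) := by
  have hr : 0 < q.2 := hq
  -- constraint at a vertex
  have hcon : ∀ v ∈ E8, 2 ≤ ‖q.1 - v‖ ^ 2 + q.2 ^ 2 := by
    intro v hv
    have h := hmin _ (wv_mem hT hv)
    rw [uval_wv v hq, div_le_div_iff₀ hr (by positivity)] at h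
    nlinarith
  rcases hcase with hc | ⟨l, hl, hsum, h0, h1, h2, h3, h4, h5, h6, h7⟩
  · -- cross polytope
    refine le_trans (ENNReal.ofReal_le_ofReal ?_) (tsum_lower2 hT AC AC_inj AC_par AC_sum hq)
    set r : ℝ := q.2 with hrdef
    set Y : Fin 8 → ℝ := fun i => q.1 i - if i = 0 then 1 else 0 with hY
    set s : ℝ := ∑ i, (Y i) ^ 2 with hs
    have hs0 : 0 ≤ s := Finset.sum_nonneg (fun _ _ => sq_nonneg _)
    have hS1 : ∑ i, |Y i| ≤ 1 := by
      rw [Fin.sum_univ_eight]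
      simp only [hY, ← hz]
      simpa using hc
    have hD : ∀ a : Fin 8 × Bool, ‖q.1 - hv (AC a)‖ ^ 2 =
        1 + s - 2 * (if a.2 then 1 else -1) * Y a.1 := fun a => dist_AC a
    have hcon' : ∀ a : Fin 8 × Bool, 2 * ((if a.2 then 1 else -1) * Y a.1) ≤ s + r ^ 2 - 1 := by
      intro a
      have := hcon _ (hv_mem (AC_par a) (AC_sum a))
      rw [hD a] at this
      linarith
    have hYb : ∀ i, 2 * |Y i| ≤ s + r ^ 2 - 1 := by
      intro i
      have e1 := hcon' (i, true)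
      have e2 := hcon' (i, false)
      simp at e1 e2
      rcases abs_cases (Y i) with ⟨h, _⟩ | ⟨h, _⟩ <;> rw [h] <;> linarith
    have hsr : s ≤ r ^ 2 - 1 := by
      obtain ⟨i0, hi0⟩ := Finite.exists_max (fun i => |Y i|)
      have e1 : s ≤ |Y i0| := by
        calc s = ∑ i, |Y i| * |Y i| := by
              rw [hs]
              refine Finset.sum_congr rfl (fun i _ => ?_)
              rw [← sq, sq_abs]
          _ ≤ ∑ i, |Y i0| * |Y i| := Finset.sum_le_sum (fun i _ =>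
              mul_le_mul_of_nonneg_right (hi0 i) (abs_nonneg _))
          _ = |Y i0| * ∑ i, |Y i| := by rw [Finset.mul_sum]
          _ ≤ |Y i0| * 1 := mul_le_mul_of_nonneg_left hS1 (abs_nonneg _)
          _ = |Y i0| := mul_one _
      have e2 := hYb i0
      linarith
    have hr1 : 1 ≤ r := by
      have e4 : 1 ≤ r ^ 2 := by linarith
      nlinarith
    have hGs : 0 ≤ ∑ j, G2 ((‖q.1 - hv (AC j)‖ ^ 2 + r ^ 2) / (2 * r)) :=
      Finset.sum_nonneg (fun _ _ => G2_nonneg _)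
    rcases le_or_gt (138 / 100) r with hr2 | hr2
    · have := G2_big hr2
      linarith
    obtain ⟨U, hU⟩ : ∃ U, U = (1 + s + r ^ 2) / (2 * r) := ⟨_, rfl⟩
    have hU2 : U ≤ r := by
      rw [hU, div_le_iff₀ (by positivity)]
      nlinarith
    have hsU : s = 2 * r * U - 1 - r ^ 2 := by
      rw [hU]; field_simp; ring
    have hx1 : ∀ i, 1 / r ≤ U - |Y i| / r := by
      intro i
      have e := hYb i
      rw [hU, div_le_iff₀ hr]
      have : ((1 + s + r ^ 2) / (2 * r) - |Y i| / r) * r = (1 + s + r ^ 2) / 2 - |Y i| := by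
        field_simp
      rw [this]
      linarith
    have h69 : 50 / 69 ≤ 1 / r := by rw [div_le_div_iff₀ (by norm_num) hr]; linarith
    have hpair : ∑ j : Fin 8 × Bool, G2 ((‖q.1 - hv (AC j)‖ ^ 2 + r ^ 2) / (2 * r)) =
        ∑ i, (G2 (U - |Y i| / r) + G2 (U + |Y i| / r)) := by
      rw [Fintype.sum_prod_type]
      refine Finset.sum_congr rfl fun i _ => ?_
      rw [Fintype.sum_bool, hD, hD]
      simp only [if_true, Bool.false_eq_true, if_false]
      have e1 : (1 + s - 2 * 1 * Y i + r ^ 2) / (2 * r) = U - Y i / r := by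
        rw [hU]; field_simp; ring
      have e2 : (1 + s - 2 * -1 * Y i + r ^ 2) / (2 * r) = U + Y i / r := by
        rw [hU]; field_simp; ring
      rw [e1, e2]
      rcases abs_cases (Y i) with ⟨h, _⟩ | ⟨h, _⟩
      · rw [h]
      · rw [h, neg_div, sub_neg_eq_add, add_comm, ← sub_eq_add_neg]
    rw [hpair]
    have hxq : ∑ i, (|Y i| / r) ^ 2 = s / r ^ 2 := by
      rw [hs, Finset.sum_div]
      refine Finset.sum_congr rfl fun i _ => ?_
      rw [div_pow, sq_abs]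
    rcases le_total U (213 / 200) with hUc | hUc
    · -- region I
      have hU1 : 1 ≤ U := by
        rw [hU, le_div_iff₀ (by positivity)]
        nlinarith [sq_nonneg (r - 1)]
      have k1 : ∀ i, 19739 / 1000 * (8 * ((213 / 200 - U) * (122 / 100 - U) + (|Y i| / r) ^ 2)) ≤
          G2 (U - |Y i| / r) + G2 (U + |Y i| / r) := fun i =>
        G2_L3 hU1 hUc (by positivity) (h69.trans (hx1 i))
      have k2 := Finset.sum_le_sum (fun i (_ : i ∈ Finset.univ) => k1 i)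
      rw [← Finset.mul_sum, ← Finset.mul_sum, Finset.sum_add_distrib, Finset.sum_const, hxq] at k2
      simp only [Finset.card_univ, Fintype.card_fin, nsmul_eq_mul] at k2
      have k3 := alg_I (r := r) (U := U) hr
      rw [← hsU] at k3
      have k4 := tot_I hr1 hr2.le
      push_cast at k2
      nlinarith
    · -- region II
      have k1 : ∑ i, G2 (U - |Y i| / r) ≤ ∑ i, (G2 (U - |Y i| / r) + G2 (U + |Y i| / r)) :=
        Finset.sum_le_sum fun i _ => by have := G2_nonneg (U + |Y i| / r); linarith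
      have hxs : ∑ i, |Y i| / r ≤ 1 / r := by
        rw [← Finset.sum_div]
        exact div_le_div_of_nonneg_right hS1 hr.le
      have k2 := near_sum hr1 hr2.le hU hUc hU2 (fun i => |Y i| / r) (fun i => by positivity) hx1
        hxs hxq
      have k4 := tot_II hr1 hr2.le
      linarith
  · -- simplex
    refine le_trans (ENNReal.ofReal_le_ofReal ?_) (tsum_lower2 hT AS AS_inj AS_par AS_sum hq)
    rw [hz] at h0 h1 h2 h3 h4 h5 h6 h7
    set r : ℝ := q.2 with hrdef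
    set s : ℝ := ∑ i, (l i) ^ 2 with hs
    have hD : ∀ j, ‖q.1 - hv (AS j)‖ ^ 2 = 1 + s - 2 * l j := fun j =>
      dist_AS hsum h0 h1 h2 h3 h4 h5 h6 h7 j
    have hsum' : ∑ j, l j = 1 := by
      rw [Fin.sum_univ_castSucc, Fin.sum_univ_eight]
      exact hsum
    have hcon' : ∀ j, 2 * l j ≤ s + r ^ 2 - 1 := by
      intro j
      have := hcon _ (hv_mem (AS_par j) (AS_sum j))
      rw [hD j] at this
      linarith
    have hsr : s ≤ r ^ 2 - 1 := by
      obtain ⟨j0, hj0⟩ := Finite.exists_max l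
      have e1 : s ≤ l j0 := by
        calc s = ∑ i, l i * l i := by
              rw [hs]
              exact Finset.sum_congr rfl (fun i _ => sq _)
          _ ≤ ∑ i, l j0 * l i := Finset.sum_le_sum (fun i _ =>
              mul_le_mul_of_nonneg_right (hj0 i) (hl i))
          _ = l j0 := by rw [← Finset.mul_sum, hsum', mul_one]
      have e2 := hcon' j0
      linarith
    have hs0 : 0 ≤ s := Finset.sum_nonneg (fun _ _ => sq_nonneg _)
    have hr1 : 1 ≤ r := by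
      have e4 : 1 ≤ r ^ 2 := by linarith
      nlinarith
    have hGs : 0 ≤ ∑ j, G2 ((‖q.1 - hv (AS j)‖ ^ 2 + r ^ 2) / (2 * r)) :=
      Finset.sum_nonneg (fun _ _ => G2_nonneg _)
    rcases le_or_gt (138 / 100) r with hr2 | hr2
    · have := G2_big hr2
      linarith
    obtain ⟨U, hU⟩ : ∃ U, U = (1 + s + r ^ 2) / (2 * r) := ⟨_, rfl⟩
    have hU2 : U ≤ r := by
      rw [hU, div_le_iff₀ (by positivity)]
      nlinarith
    have hx1 : ∀ i, 1 / r ≤ U - l i / r := by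
      intro i
      have e := hcon' i
      rw [hU, div_le_iff₀ hr]
      have : ((1 + s + r ^ 2) / (2 * r) - l i / r) * r = (1 + s + r ^ 2) / 2 - l i := by
        field_simp
      rw [this]
      linarith
    have hrew : ∑ j, G2 ((‖q.1 - hv (AS j)‖ ^ 2 + r ^ 2) / (2 * r)) = ∑ j, G2 (U - l j / r) := by
      refine Finset.sum_congr rfl fun j _ => ?_
      rw [hD]
      congr 1
      rw [hU]; field_simp; ring
    rw [hrew]
    have hxq : ∑ i, (l i / r) ^ 2 = s / r ^ 2 := by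
      rw [hs, Finset.sum_div]
      refine Finset.sum_congr rfl fun i _ => ?_
      rw [div_pow]
    have hxs : ∑ i, l i / r = 1 / r := by
      rw [← Finset.sum_div, hsum']
    have k4 := tot_II hr1 hr2.le
    rcases le_total U (213 / 200) with hUc | hUc
    · have k2 := near_sum' hr1 hr2.le hU hUc (fun i => l i / r)
        (fun i => div_nonneg (hl i) hr.le) hx1 hxs hxq
      linarith
    · have k2 := near_sum hr1 hr2.le hU hUc hU2 (fun i => l i / r)
        (fun i => div_nonneg (hl i) hr.le) hx1 hxs.le hxq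
      linarith

/-- module LOW8b (the results of the modules ALG and RED8 are hypotheses) -/
theorem lower_E8b_aux
    (huv : ∀ {g : LV 8 ≃ₗ[ℝ] LV 8}, g ∈ LG 8 → ∀ (w : LV 8) {p : Pt 8},
      p ∈ UH 8 → uval w (act g p) = uval (g⁻¹ w) p)
    (hact : ∀ {g : LV 8 ≃ₗ[ℝ] LV 8}, g ∈ LG 8 → ∀ {p : Pt 8}, p ∈ UH 8 → act g p ∈ UH 8)
    (hT : ∀ {v : E 8}, v ∈ E8 → T v ∈ OL E8)
    (hred : ∀ {p : Pt 8}, p ∈ UH 8 → ∃ γ ∈ OL E8,
      (∀ w ∈ Orb E8, 1 / (act γ p).2 ≤ uval w (act γ p)) ∧ ∃ z : Fin 8 → ℝ,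
      (∀ i, z i = (act γ p).1 i) ∧
        ((|z 0 - 1| + |z 1| + |z 2| + |z 3| + |z 4| + |z 5| + |z 6| + |z 7| ≤ 1) ∨
         ∃ l : Fin 9 → ℝ, (∀ j, 0 ≤ l j) ∧
          l 0 + l 1 + l 2 + l 3 + l 4 + l 5 + l 6 + l 7 + l 8 = 1 ∧
          z 0 = l 1 + l 2 + l 3 + l 4 + l 5 + l 6 + l 7 + l 8 / 2 ∧
          z 1 = l 1 + l 8 / 2 ∧ z 2 = l 2 + l 8 / 2 ∧ z 3 = l 3 + l 8 / 2 ∧ z 4 = l 4 + l 8 / 2 ∧
          z 5 = l 5 + l 8 / 2 ∧ z 6 = l 6 + l 8 / 2 ∧ z 7 = l 7 + l 8 / 2))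
    {p : Pt 8} (hp : p ∈ UH 8) :
    ENNReal.ofReal (16 * (1171 / 1000)) ≤
      ∑' w : Orb E8, ENNReal.ofReal (19739 / 1000 * (1 / uval w p) ^ 2 *
        psi2 (1 / uval w p)) := by
  obtain ⟨γ, hγ, hmin, z, hz, hcase⟩ := hred hp
  have h := reduced2 hT (hact hγ.1 hp) hmin hz hcase
  rw [sum_reduce huv hγ hp (fun u => ENNReal.ofReal (G2 u))] at h
  have e : (16 * (1171 / 1000) : ℝ) = 18736 / 1000 := by norm_num
  rw [e]
  exact h

end Pool.Agent.Helper10.Lor
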