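import Pool.Agent.Helper10.Lor.Psi2
import Pool.Agent.Helper34.Lor.UP8

set_option autoImplicit false

/-!
# Upper bound for the sum of the weights `psi2` over the cusps, lattice `U ⊕ E₈`
-/

namespace Pool.Agent.Helper10.Lor

open Pool.Agent.Helper34.Lor
open scoped Classical

/-- the numerical inequality -/
theorem num_up {k y m : ℕ} (hk : 2 ≤ k) (hk18 : k ≤ 18) (hm : k ≤ 10 ∨ 2 * k ≤ 18 + m) :
    ((k : ℝ) * (213 / 200) + y * (391 / 500) - 1171 / 1000) ^ 2 ≤
      ((k : ℝ) + 17 / 20 * y) ^ 2 - k - (17 / 10 + 289 / 400) * y + m := by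
  have hm0 : (0 : ℝ) ≤ m := by positivity
  have hy0 : (0 : ℝ) ≤ y := by positivity
  rcases Nat.lt_or_ge k 11 with h11 | h11
  · interval_cases k <;> push_cast <;> nlinarith [sq_nonneg ((y : ℝ) - 1), sq_nonneg ((y : ℝ) - 2)]
  · have h8 : 2 * (k : ℝ) ≤ 18 + m := by exact_mod_cast (by omega : 2 * k ≤ 18 + m)
    interval_cases k <;> push_cast at h8 ⊢ <;> nlinarith [sq_nonneg ((y : ℝ) - 1)]

/-- the coefficients -/
noncomputable def cw (p : Pt 8) (w : LV 8) : ℝ := 1 + if uval w p < 23 / 25 then 17 / 20 else 0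

theorem one_le_cw (p : Pt 8) (w : LV 8) : 1 ≤ cw p w := by
  unfold cw
  split_ifs <;> norm_num

theorem psi2_le (p : Pt 8) {w : LV 8} (hu : uval w p < 213 / 200) :
    psi2 (1 / uval w p) ≤ (213 / 200 + if uval w p < 23 / 25 then (391 / 500 : ℝ) else 0)
      - cw p w * uval w p := by
  unfold psi2 cw
  rw [one_div_one_div]
  have h0 := le_max_left (uval w p) (7 / 10)
  have h0' : max (uval w p) (7 / 10) < 213 / 200 := max_lt hu (by norm_num)
  have h1 : max 0 (213 / 200 - max (uval w p) (7 / 10)) = 213 / 200 - max (uval w p) (7 / 10) :=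
    max_eq_right (by linarith)
  rw [h1]
  split_ifs with h
  · have h0'' : max (uval w p) (7 / 10) < 23 / 25 := max_lt h (by norm_num)
    have h2 : max 0 (23 / 25 - max (uval w p) (7 / 10)) = 23 / 25 - max (uval w p) (7 / 10) :=
      max_eq_right (by linarith)
    rw [h2]
    linarith
  · have h2 : max 0 (23 / 25 - max (uval w p) (7 / 10)) = 0 := max_eq_left (by linarith)
    rw [h2]
    linarith

theorem psi2_le_const (r : ℝ) : psi2 r ≤ 552 / 1000 := by
  unfold psi2
  have h0 : (7 / 10 : ℝ) ≤ max (1 / r) (7 / 10) := le_max_right _ _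
  have h1 : max 0 (213 / 200 - max (1 / r) (7 / 10)) ≤ 73 / 200 := max_le (by norm_num) (by linarith)
  have h2 : max 0 (23 / 25 - max (1 / r) (7 / 10)) ≤ 11 / 50 := max_le (by norm_num) (by linarith)
  linarith

theorem sum_bound2 {p : Pt 8} (hp : p ∈ UH 8) (S : Finset (LV 8)) (hS : ∀ w ∈ S, w ∈ Orb E8)
    (hu : ∀ w ∈ S, uval w p < 213 / 200) : ∑ w ∈ S, psi2 (1 / uval w p) ≤ 1171 / 1000 := by
  obtain ⟨b, hL⟩ := Pool.Agent.Helper77.Lor.evenLat_E8
  have hpos : ∀ w ∈ S, 0 < uval w p := fun w hw => Pool.Agent.Helper13.Lor.uval_pos (hS w hw) hp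
  have hfu : ∀ w, form (vec p) w = -uval w p := fun w => by unfold uval; ring
  have h0 : ∀ w ∈ S, form w w = 0 := fun w hw => orb_form (hS w hw)
  have h1 : ∀ w ∈ S, ∀ w' ∈ S, w ≠ w' → form w w' ≤ -1 := by
    intro w hw w' hw' hne
    obtain ⟨m, hm, hm1⟩ := orb_neg hL (hS w hw) (hS w' hw') hne
    rw [hm]
    have : (1 : ℝ) ≤ m := by exact_mod_cast hm1
    linarith
  have h12 : ∀ w ∈ S, ∀ w' ∈ S, w ≠ w' → form w w' = -1 ∨ form w w' = -2 := by
    intro w hw w' hw' hne
    obtain ⟨m, hm, hm1⟩ := orb_neg hL (hS w hw) (hS w' hw') hne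
    have h2 := Pool.Agent.Helper13.Lor.rcs (uval w' p • w + uval w p • w') hp
    have e0 : form (vec p) (uval w' p • w + uval w p • w') = -(2 * (uval w p * uval w' p)) := by
      rw [form_add_right, form_smul_right, form_smul_right, hfu, hfu]; ring
    rw [e0] at h2
    simp only [form_add_left, form_add_right, form_smul_left, form_smul_right, h0 w hw, h0 w' hw',
      form_comm w' w] at h2
    rw [hm] at h2 ⊢
    have p1 := hpos w hw
    have p2 := hpos w' hw'
    have u1 := hu w hw
    have u2 := hu w' hw'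
    set x := uval w p
    set y := uval w' p
    have hxy : 0 < x * y := mul_pos p1 p2
    have h3 : 2 * (x * y) * m ≤ 4 * (x * y) * (x * y) := by nlinarith
    have h4 : (m : ℝ) ≤ 2 * (x * y) := by
      by_contra hc
      push Not at hc
      nlinarith
    have h5 : x * y < 213 / 200 * (213 / 200) := by nlinarith
    have h6 : (m : ℝ) < 3 := by norm_num at h5; linarith
    have h7 : m < 3 := by exact_mod_cast h6
    have h8 : m = 1 ∨ m = 2 := by omega
    rcases h8 with h8 | h8
    · left; rw [h8]; norm_num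
    · right; rw [h8]; norm_num
  have huniq : ∀ a ∈ S, ∀ b ∈ S, ∀ c ∈ S, form a b = -2 → form a c = -2 → b = c := by
    intro a ha b hb c hc hab hac
    by_contra hbc
    have h2 := Pool.Agent.Helper13.Lor.rcs ((3 : ℝ) • a + ((2 : ℝ) • b + (2 : ℝ) • c)) hp
    have e0 : form (vec p) ((3 : ℝ) • a + ((2 : ℝ) • b + (2 : ℝ) • c)) =
        -(3 * uval a p + (2 * uval b p + 2 * uval c p)) := by
      rw [form_add_right, form_add_right, form_smul_right, form_smul_right, form_smul_right,
        hfu, hfu, hfu]; ring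
    rw [e0, neg_sq] at h2
    simp only [form_add_left, form_add_right, form_smul_left, form_smul_right, h0 a ha, h0 b hb,
      h0 c hc, form_comm b a, form_comm c a, form_comm c b, hab, hac] at h2
    have h3 := h1 b hb c hc hbc
    have u1 := hu a ha
    have u2 := hu b hb
    have u3 := hu c hc
    have p1 := hpos a ha
    have p2 := hpos b hb
    have p3 := hpos c hc
    have h4 : 3 * uval a p + (2 * uval b p + 2 * uval c p) < 7 * (213 / 200) := by linarith
    have h5 : 0 < 3 * uval a p + (2 * uval b p + 2 * uval c p) := by linarith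
    have h6 : (3 * uval a p + (2 * uval b p + 2 * uval c p)) ^ 2 < (7 * (213 / 200)) ^ 2 :=
      pow_lt_pow_left₀ h4 h5.le two_ne_zero
    norm_num at h6
    nlinarith
  obtain ⟨hMk, hMd⟩ := card_bound h0 h12 huniq
  set M := (S ×ˢ S).filter (fun z => form z.1 z.2 = -2) with hMdef
  set S2 := S.filter (fun w => uval w p < 23 / 25) with hS2
  -- small sets
  have hk18 : S.card ≤ 18 := by
    rcases hMd with h | h <;> omega
  rcases Nat.lt_or_ge S.card 2 with hk2 | hk2
  · have h3 : ∑ w ∈ S, psi2 (1 / uval w p) ≤ ∑ w ∈ S, (552 / 1000 : ℝ) :=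
      Finset.sum_le_sum fun w _ => psi2_le_const _
    rw [Finset.sum_const, nsmul_eq_mul] at h3
    have h4 : (S.card : ℝ) ≤ 1 := by exact_mod_cast (by omega : S.card ≤ 1)
    linarith
  have hcs : ∑ w ∈ S, cw p w = S.card + 17 / 20 * S2.card := by
    unfold cw
    rw [Finset.sum_add_distrib, Finset.sum_const, nsmul_eq_mul, mul_one, ← Finset.sum_filter,
      Finset.sum_const, nsmul_eq_mul]
    ring
  have hcs2 : ∑ w ∈ S, cw p w ^ 2 = S.card + (17 / 10 + 289 / 400) * S2.card := by
    have e : ∀ w ∈ S, cw p w ^ 2 = 1 + if uval w p < 23 / 25 then (17 / 10 + 289 / 400 : ℝ) else 0 := by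
      intro w _
      unfold cw
      split_ifs <;> norm_num
    rw [Finset.sum_congr rfl e, Finset.sum_add_distrib, Finset.sum_const, nsmul_eq_mul, mul_one,
      ← Finset.sum_filter, Finset.sum_const, nsmul_eq_mul]
    ring
  -- the quadratic inequality
  have hq : ((S.card : ℝ) + 17 / 20 * S2.card) ^ 2 - (S.card + (17 / 10 + 289 / 400) * S2.card)
      + M.card ≤ (∑ w ∈ S, cw p w * uval w p) ^ 2 := by
    have h2 := Pool.Agent.Helper13.Lor.rcs (∑ w ∈ S, cw p w • w) hp
    have e1 : form (vec p) (∑ w ∈ S, cw p w • w) = -∑ w ∈ S, cw p w * uval w p := by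
      rw [form_sum_right, ← Finset.sum_neg_distrib]
      refine Finset.sum_congr rfl fun w _ => ?_
      rw [form_smul_right, hfu]
      ring
    rw [e1, neg_sq] at h2
    refine le_trans ?_ h2
    have e2 : form (∑ w ∈ S, cw p w • w) (∑ w ∈ S, cw p w • w) =
        ∑ z ∈ S ×ˢ S, cw p z.1 * cw p z.2 * form z.1 z.2 := by
      rw [form_sum_left, Finset.sum_product]
      refine Finset.sum_congr rfl fun w _ => ?_
      rw [form_sum_right]
      refine Finset.sum_congr rfl fun w' _ => ?_
      rw [form_smul_left, form_smul_right]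
      ring
    have e3 : ∀ z ∈ S ×ˢ S, cw p z.1 * cw p z.2 * form z.1 z.2 ≤ -(cw p z.1 * cw p z.2) +
        (if z.1 = z.2 then cw p z.1 ^ 2 else 0) - (if form z.1 z.2 = -2 then 1 else 0) := by
      intro z hz
      rw [Finset.mem_product] at hz
      have c1 := one_le_cw p z.1
      have c2 := one_le_cw p z.2
      by_cases hzz : z.1 = z.2
      · rw [if_pos hzz, ← hzz, h0 _ hz.1, if_neg (by norm_num)]
        nlinarith
      · rw [if_neg hzz]
        rcases h12 _ hz.1 _ hz.2 hzz with k | k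
        · rw [k, if_neg (by norm_num)]
          nlinarith
        · rw [k, if_pos rfl]
          nlinarith
    have e4 : ∑ z ∈ S ×ˢ S, cw p z.1 * cw p z.2 * form z.1 z.2 ≤
        -((S.card + 17 / 20 * S2.card : ℝ) ^ 2) + (S.card + (17 / 10 + 289 / 400) * S2.card)
          - M.card := by
      refine le_trans (Finset.sum_le_sum e3) (le_of_eq ?_)
      rw [Finset.sum_sub_distrib, Finset.sum_add_distrib, Finset.sum_neg_distrib, Finset.sum_boole]
      have f1 : ∑ z ∈ S ×ˢ S, cw p z.1 * cw p z.2 = (S.card + 17 / 20 * S2.card : ℝ) ^ 2 := by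
        rw [← hcs, sq, Finset.sum_mul_sum, Finset.sum_product]
      have f2 : ∑ z ∈ S ×ˢ S, (if z.1 = z.2 then cw p z.1 ^ 2 else 0) =
          S.card + (17 / 10 + 289 / 400) * S2.card := by
        rw [← hcs2, Finset.sum_product]
        refine Finset.sum_congr rfl fun w hw => ?_
        rw [Finset.sum_ite_eq S w]
        rw [if_pos hw]
      rw [f1, f2]
    rw [e2]
    linarith
  have hle : ∑ w ∈ S, psi2 (1 / uval w p) ≤ (S.card : ℝ) * (213 / 200) + S2.card * (391 / 500)
      - ∑ w ∈ S, cw p w * uval w p := by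
    refine le_trans (Finset.sum_le_sum fun w hw => psi2_le p (hu w hw)) (le_of_eq ?_)
    rw [Finset.sum_sub_distrib, Finset.sum_add_distrib, Finset.sum_const, nsmul_eq_mul,
      ← Finset.sum_filter, Finset.sum_const, nsmul_eq_mul]
  refine hle.trans ?_
  have hU0 : 0 ≤ ∑ w ∈ S, cw p w * uval w p := Finset.sum_nonneg fun w hw =>
    mul_nonneg (by have := one_le_cw p w; linarith) (hpos w hw).le
  generalize ∑ w ∈ S, cw p w * uval w p = U at hq hU0 ⊢
  by_contra hc
  push Not at hc
  have h5 : U ^ 2 < ((S.card : ℝ) * (213 / 200) + S2.card * (391 / 500) - 1171 / 1000) ^ 2 :=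
    pow_lt_pow_left₀ (by linarith) hU0 two_ne_zero
  have h6 := num_up (k := S.card) (y := S2.card) (m := M.card) hk2 hk18 (by
    rcases hMd with h | h
    · exact Or.inl h.2
    · exact Or.inr h)
  linarith

/-- module UP8b -/
theorem upper_E8b {p : Pt 8} (hp : p ∈ UH 8) :
    ∑' w : Orb E8, ENNReal.ofReal (psi2 (1 / uval w p)) ≤ ENNReal.ofReal (1171 / 1000) := by
  rw [ENNReal.tsum_eq_iSup_sum]
  apply iSup_le
  intro s
  rw [← ENNReal.ofReal_sum_of_nonneg (fun w _ => psi2_nonneg _)]
  apply ENNReal.ofReal_le_ofReal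
  have h1 : ∑ w ∈ s, psi2 (1 / uval (w : LV 8) p) =
      ∑ w ∈ s.filter (fun w : Orb E8 => uval (w : LV 8) p < 213 / 200),
        psi2 (1 / uval (w : LV 8) p) := by
    rw [Finset.sum_filter]
    apply Finset.sum_congr rfl
    intro w _
    by_cases h : uval (w : LV 8) p < 213 / 200
    · rw [if_pos h]
    · rw [if_neg h]
      unfold psi2
      rw [one_div_one_div]
      have h0 := le_max_left (uval (w : LV 8) p) (7 / 10)
      rw [max_eq_left (by linarith), max_eq_left (by linarith)]
      norm_num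
  have h2 : ∑ w ∈ (s.filter (fun w : Orb E8 => uval (w : LV 8) p < 213 / 200)).map
      (Function.Embedding.subtype _), psi2 (1 / uval w p) =
      ∑ w ∈ s.filter (fun w : Orb E8 => uval (w : LV 8) p < 213 / 200),
        psi2 (1 / uval (w : LV 8) p) := by
    rw [Finset.sum_map]
    rfl
  rw [h1, ← h2]
  apply sum_bound2 hp
  · intro w hw
    rw [Finset.mem_map] at hw
    obtain ⟨v, -, rfl⟩ := hw
    exact v.2
  · intro w hw
    rw [Finset.mem_map] at hw
    obtain ⟨v, hv, rfl⟩ := hw
    exact (Finset.mem_filter.1 hv).2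

end Pool.Agent.Helper10.Lor
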