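import Pool.Agent.Helper10.Lor.All
import Pool.Agent.Helper10.Lor.UP8b
import Pool.Agent.Helper10.Lor.LOW8b

set_option autoImplicit false

/-!
# Assembly of the lower bound for the cuspidal eigenvalues
-/

namespace Pool.Agent.Helper10.Lor

open MeasureTheory Topology
open scoped ENNReal

variable {n : ℕ}

theorem isOpen_UH : IsOpen (UH n) := isOpen_lt continuous_const continuous_snd

theorem measurableSet_UH : MeasurableSet (UH n) := isOpen_UH.measurableSet

theorem ae_hyp_mem : ∀ᵐ p ∂(hyp n), p ∈ UH n :=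
  (withDensity_absolutelyContinuous _ _).ae_le (ae_restrict_mem measurableSet_UH)

theorem measurableSet_siegel (C a : ℝ) : MeasurableSet {p : Pt n | ‖p.1‖ ≤ C ∧ a ≤ p.2} := by
  have : {p : Pt n | ‖p.1‖ ≤ C ∧ a ≤ p.2} = {p : Pt n | ‖p.1‖ ≤ C} ∩ {p : Pt n | a ≤ p.2} := rfl
  rw [this]
  exact (measurableSet_le measurable_fst.norm measurable_const).inter
    (measurableSet_le measurable_const measurable_snd)

/-- the hyperbolic volume of a Siegel-type set is finite -/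
theorem hyp_siegel (hn : 0 < n) (C a : ℝ) (ha : 0 < a) :
    hyp n {p : Pt n | ‖p.1‖ ≤ C ∧ a ≤ p.2} < ⊤ := by
  have hmeas := measurableSet_siegel (n := n) C a
  have h1 : hyp n {p : Pt n | ‖p.1‖ ≤ C ∧ a ≤ p.2}
      ≤ ∫⁻ p : Pt n in (Metric.closedBall (0 : E n) C) ×ˢ (Set.Ici a),
        ENNReal.ofReal ((p.2 ^ (n + 1))⁻¹) := by
    rw [hyp, withDensity_apply _ hmeas]
    rw [Measure.restrict_restrict hmeas]
    apply lintegral_mono' (Measure.restrict_mono ?_ le_rfl) le_rfl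
    rintro p ⟨⟨h1, h2⟩, h3⟩
    exact ⟨by simpa using h1, h2⟩
  refine lt_of_le_of_lt h1 ?_
  rw [show (volume : Measure (Pt n)) = (volume : Measure (E n)).prod (volume : Measure ℝ) from rfl,
    ← Measure.prod_restrict]
  rw [lintegral_prod _ (by fun_prop)]
  simp only
  rw [lintegral_const]
  apply ENNReal.mul_lt_top
  · have : IntegrableOn (fun r : ℝ => (r ^ (n + 1))⁻¹) (Set.Ici a) := by
      have h := integrableOn_Ioi_rpow_of_lt (a := -((n : ℝ) + 1))
        (by have : (0 : ℝ) < n := by exact_mod_cast hn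
            linarith) ha
      rw [integrableOn_Ici_iff_integrableOn_Ioi]
      refine h.congr_fun ?_ measurableSet_Ioi
      intro x hx
      have hx0 : 0 < x := lt_trans ha hx
      simp only
      rw [show (-((n : ℝ) + 1) : ℝ) = -(((n + 1 : ℕ) : ℕ) : ℝ) by push_cast; ring,
        Real.rpow_neg hx0.le, Real.rpow_natCast]
    exact this.lintegral_lt_top
  · rw [Measure.restrict_apply_univ]
    exact measure_closedBall_lt_top

theorem Kap.le_one {L : AddSubgroup (E n)} {κ : Pt n → ℝ} {C a : ℝ} (hK : Kap L κ C a) {p : Pt n}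
    (hp : p ∈ UH n) : κ p ≤ 1 := by
  have h := hK.sum p hp
  have h1 := le_hasSum h (1 : OL L) (fun j _ => hK.nonneg _)
  rw [Subgroup.coe_one, act_one hp] at h1
  exact h1

theorem Kap.lintegral_lt_top (hn : 0 < n) {L : AddSubgroup (E n)} {κ : Pt n → ℝ} {C a : ℝ}
    (hK : Kap L κ C a) : ∫⁻ p, ENNReal.ofReal (κ p) ∂(hyp n) < ⊤ := by
  have hmeas := measurableSet_siegel (n := n) C a
  refine lt_of_le_of_lt ?_ (hyp_siegel hn C a hK.pos)
  rw [← lintegral_indicator_one hmeas]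
  apply lintegral_mono_ae
  filter_upwards [ae_hyp_mem] with p hp
  by_cases h : p ∈ {p : Pt n | ‖p.1‖ ≤ C ∧ a ≤ p.2}
  · rw [Set.indicator_of_mem h]
    simpa using hK.le_one hp
  · have : κ p = 0 := by
      by_contra h0
      exact h (hK.supp p h0)
    simp [this]

/-- an abstract weight function `ψ` for the main argument: `low` holds with the constant `rho` -/
structure AWeights (L : AddSubgroup (E n)) (ψ : ℝ → ℝ) (μ nuM rho : ℝ) : Prop where
  hψ : Measurable ψ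
  hψ0 : ∀ r, 0 ≤ ψ r
  hμ : 0 ≤ μ
  hnuM : 0 < nuM
  up : ∀ p ∈ UH n, ∑' w : Orb L, ENNReal.ofReal (ψ (1 / uval w p)) ≤ ENNReal.ofReal nuM
  low : ∀ p ∈ UH n, ENNReal.ofReal (rho * nuM) ≤
    ∑' w : Orb L, ENNReal.ofReal (μ * (1 / uval w p) ^ 2 * ψ (1 / uval w p))

theorem measurable_pd (e : Pt n) (f : Pt n → ℂ) : Measurable (pd e f) :=
  measurable_fderiv_apply_const ℝ f e

theorem measurable_gsq (f : Pt n → ℂ) : Measurable (gsq f) := by
  unfold gsq
  exact (measurable_snd.pow_const 2).mul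
    ((Finset.measurable_sum _ fun k _ => (measurable_pd (dir k) f).norm.pow_const 2).add
      ((measurable_pd er f).norm.pow_const 2))

theorem gsq_nonneg (f : Pt n → ℂ) (p : Pt n) : 0 ≤ gsq f p := by
  unfold gsq; positivity

theorem continuous_cell (b : Fin n → E n) (r : ℝ) :
    Continuous fun x : Fin n → ℝ => ((∑ i, x i • b i, r) : Pt n) :=
  (continuous_finsetSum _ fun i _ => (continuous_apply i).smul continuous_const).prodMk
    continuous_const

theorem measurable_cell (b : Fin n → E n) (r : ℝ) :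
    Measurable fun x : Fin n → ℝ => ((∑ i, x i • b i, r) : Pt n) :=
  (continuous_cell b r).measurable

theorem cellInt_finset_sum (b : Fin n → E n) {ι : Type} (S : Finset ι) (F : ι → Pt n → ℝ≥0∞)
    (hF : ∀ i, Measurable (F i)) (r : ℝ) :
    cellInt b (fun p => ∑ i ∈ S, F i p) r = ∑ i ∈ S, cellInt b (F i) r := by
  unfold cellInt
  rw [lintegral_finsetSum]
  intro i _
  exact (hF i).comp (measurable_cell b r)

theorem measurable_cellInt (b : Fin n → E n) (F : Pt n → ℝ≥0∞) (hF : Measurable F) :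
    Measurable (cellInt b F) := by
  unfold cellInt
  have h1 : Measurable (fun q : ℝ × (Fin n → ℝ) => F (∑ i, q.2 i • b i, q.1)) := by
    refine hF.comp (Continuous.measurable ?_)
    exact (continuous_finsetSum _ fun i _ =>
      ((continuous_apply i).comp continuous_snd).smul continuous_const).prodMk continuous_fst
  exact h1.lintegral_prod_right'

theorem main_sys (hn : 0 < n) {L : AddSubgroup (E n)} {b₀ : Fin n → E n} (hL : EvenLat L b₀)
    {C0 a0 : ℝ} (ha0 : 0 < a0) (hcov : Covers L C0 a0)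
    {ψ : ℝ → ℝ} {μ nuM rho : ℝ} (hrho : 0 < rho) (hw : AWeights L ψ μ nuM rho)
    {ι : Type} [Fintype ι] {u : ι → Pt n → ℂ} (hS : Sys L ι u) (hum : ∀ i, Measurable (u i))
    {b : ι → Fin n → E n}
    {m : Fin n → E n} (hm : LinearIndependent ℝ m)
    (hm0 : ∀ j, ∃ c : Fin n → ℤ, m j = ∑ l, (c l : ℝ) • b₀ l)
    (hmb : ∀ i j, ∃ c : Fin n → ℤ, m j = ∑ l, (c l : ℝ) • b i l)
    (huper : ∀ i, ∀ j, ∀ p ∈ UH n, u i (p.1 + b i j, p.2) = u i p)
    {B : ℝ} (hB : ∀ i, ∀ p ∈ UH n, ‖u i p‖ ≤ B) (lam : ℂ) (heig : ∀ i, WeakEig lam (u i))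
    (hW : ∀ i, ∀ r : ℝ, 0 < r →
      ENNReal.ofReal μ * cellInt (b i) (fun p => ENNReal.ofReal (‖u i p‖ ^ 2)) r
        ≤ cellInt (b i)
          (fun p => ENNReal.ofReal (∑ k : Fin n, ‖pd (dir k) (u i) p‖ ^ 2)) r)
    (hne : ∃ i, ∃ p ∈ UH n, u i p ≠ 0) : lam.im = 0 ∧ rho ≤ lam.re := by
  obtain ⟨κ, C, a', hK⟩ := exists_kap hL ha0 hcov
  set FA : Pt n → ℝ≥0∞ := fun p => ENNReal.ofReal (∑ i, ‖u i p‖ ^ 2) with hFA
  set FB : Pt n → ℝ≥0∞ := fun p => ENNReal.ofReal (∑ i, gsq (u i) p) with hFB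
  have hFAm : Measurable FA := by
    apply Measurable.ennreal_ofReal
    exact Finset.measurable_sum _ (fun i _ => ((hum i).norm.pow_const 2))
  have hFBm : Measurable FB := by
    apply Measurable.ennreal_ofReal
    exact Finset.measurable_sum _ (fun i _ => measurable_gsq (u i))
  have hκm : Measurable (fun p => ENNReal.ofReal (κ p)) :=
    hK.smooth.continuous.measurable.ennreal_ofReal
  have hSAm : Measurable (fun p => ENNReal.ofReal (κ p) * FA p) := hκm.mul hFAm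
  have hSBm : Measurable (fun p => ENNReal.ofReal (κ p) * FB p) := hκm.mul hFBm
  -- invariance
  have hFAi : ∀ γ ∈ OL L, ∀ p ∈ UH n, FA (act γ p) = FA p := by
    intro γ hγ p hp
    obtain ⟨σ, hσ⟩ := hS.perm γ hγ
    simp only [hFA]
    congr 1
    rw [← Equiv.sum_comp σ (fun i => ‖u i p‖ ^ 2)]
    exact Finset.sum_congr rfl (fun i _ => by rw [hσ i p hp])
  have hdiff : ∀ i, ∀ p ∈ UH n, DifferentiableAt ℝ (u i) p := by
    intro i p hp
    exact ((hS.smooth i).contDiffAt (isOpen_UH.mem_nhds hp)).differentiableAt (by norm_num)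
  have hFBi : ∀ γ ∈ OL L, ∀ p ∈ UH n, FB (act γ p) = FB p := by
    intro γ hγ p hp
    obtain ⟨σ, hσ⟩ := hS.perm γ hγ
    simp only [hFB]
    congr 1
    rw [← Equiv.sum_comp σ (fun i => gsq (u i) p)]
    refine Finset.sum_congr rfl (fun i _ => ?_)
    rw [← gsq_comp_act hγ.1 hp (hdiff i _ (act_mem hγ.1 hp))]
    have he : (fun q => u i (act γ q)) =ᶠ[𝓝 p] u (σ i) := by
      filter_upwards [isOpen_UH.mem_nhds hp] with q hq using hσ i q hq
    unfold gsq pd
    rw [he.fderiv_eq]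
  set SA := ∫⁻ p, ENNReal.ofReal (κ p) * FA p ∂(hyp n) with hSA
  set SB := ∫⁻ p, ENNReal.ofReal (κ p) * FB p ∂(hyp n) with hSB
  -- SA is finite
  have hSAtop : SA ≠ ⊤ := by
    have hle : SA ≤ ∫⁻ p, ENNReal.ofReal (κ p) * ENNReal.ofReal (∑ _i : ι, B ^ 2) ∂(hyp n) := by
      apply lintegral_mono_ae
      filter_upwards [ae_hyp_mem] with p hp
      gcongr
      apply ENNReal.ofReal_le_ofReal
      exact Finset.sum_le_sum (fun i _ => pow_le_pow_left₀ (norm_nonneg _) (hB i p hp) 2)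
    refine ne_top_of_le_ne_top ?_ hle
    rw [lintegral_mul_const _ hκm]
    exact ENNReal.mul_ne_top (hK.lintegral_lt_top hn).ne ENNReal.ofReal_ne_top
  obtain ⟨hE1, hE2⟩ := energy hL hK hS lam heig hSAtop
  change SB ≤ ENNReal.ofReal lam.re * SA at hE1
  change lam.im = 0 ∨ SA = 0 at hE2
  -- SA is positive
  have hSA0 : SA ≠ 0 := by
    intro h0
    have h1 : ∫⁻ p, (1 : ℝ≥0∞) * FA p ∂(hyp n) = 0 := by
      have := unfold hL hK (fun _ => (1 : ℝ≥0∞)) FA measurable_const hFAm hFAi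
      rw [this]
      rw [hSA, lintegral_eq_zero_iff hSAm] at h0
      apply (lintegral_eq_zero_iff' ?_).2
      · filter_upwards [h0] with p hp
        simp only [Pi.zero_apply] at hp ⊢
        rcases mul_eq_zero.1 hp with h | h
        · rw [h]; simp
        · rw [h]; simp
      · exact (hκm.aemeasurable.mul aemeasurable_const).mul hFAm.aemeasurable
    simp only [one_mul] at h1
    rw [lintegral_eq_zero_iff hFAm] at h1
    obtain ⟨i, p, hp, hup⟩ := hne
    -- on a neighbourhood FA is positive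
    have hcont : ContinuousOn (u i) (UH n) := (hS.smooth i).continuousOn
    have hopen : IsOpen (UH n ∩ u i ⁻¹' {0}ᶜ) :=
      hcont.isOpen_inter_preimage isOpen_UH isOpen_compl_singleton
    have hnull : hyp n (UH n ∩ u i ⁻¹' {0}ᶜ) = 0 := by
      have : ∀ᵐ q ∂(hyp n), q ∉ UH n ∩ u i ⁻¹' {0}ᶜ := by
        filter_upwards [h1] with q hq hq2
        simp only [hFA, Pi.zero_apply, ENNReal.ofReal_eq_zero] at hq
        have h3 : ‖u i q‖ ^ 2 ≤ ∑ j, ‖u j q‖ ^ 2 :=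
          Finset.single_le_sum (f := fun j => ‖u j q‖ ^ 2) (fun j _ => by positivity)
            (Finset.mem_univ i)
        have h4 : 0 < ‖u i q‖ ^ 2 := by
          have : u i q ≠ 0 := hq2.2
          positivity
        linarith
      exact measure_eq_zero_iff_ae_notMem.2 this
    have hpos : 0 < (volume : Measure (Pt n)) (UH n ∩ u i ⁻¹' {0}ᶜ) :=
      hopen.measure_pos volume ⟨p, hp, hup⟩
    rw [hyp, withDensity_apply_eq_zero' (by fun_prop)] at hnull
    have hsub : {p : Pt n | ENNReal.ofReal ((p.2 ^ (n + 1))⁻¹) ≠ 0} ∩ (UH n ∩ u i ⁻¹' {0}ᶜ)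
        = UH n ∩ u i ⁻¹' {0}ᶜ := by
      apply Set.inter_eq_right.2
      rintro q ⟨hq, -⟩
      have : (0 : ℝ) < q.2 := hq
      simp only [Set.mem_ofPred_eq, ne_eq, ENNReal.ofReal_eq_zero, not_le]
      positivity
    rw [hsub, Measure.restrict_apply hopen.measurableSet, Set.inter_assoc] at hnull
    have hsub2 : UH n ∩ (u i ⁻¹' {0}ᶜ ∩ UH n) = UH n ∩ u i ⁻¹' {0}ᶜ := by
      ext q; simp only [Set.mem_inter_iff]; tauto
    rw [hsub2] at hnull
    exact hpos.ne' hnull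
  have him : lam.im = 0 := hE2.resolve_right hSA0
  refine ⟨him, ?_⟩
  -- the chain
  obtain ⟨KK, hK0, hKtop, hKK⟩ := strip_unfold hL hK
  have hper : ∀ F : Pt n → ℝ≥0∞, (∀ γ ∈ OL L, ∀ p ∈ UH n, F (act γ p) = F p) →
      ∀ i, ∀ z : E n, ∀ r : ℝ, 0 < r → F (z + b₀ i, r) = F (z, r) := by
    intro F hF i z r hr
    have hmem : T (b₀ i) ∈ OL L := by
      refine T_mem_OL hL ((hL.mem _).2 ⟨Pi.single i 1, ?_⟩)
      rw [Finset.sum_eq_single i]
      · simp
      · intro j _ hj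
        simp [Pi.single_eq_of_ne hj]
      · simp
    have hz : ((z, r) : Pt n) ∈ UH n := hr
    have := hF _ hmem (z, r) hz
    rwa [act_T _ hz] at this
  have hup : ∫⁻ r in Set.Ioi (0 : ℝ), ENNReal.ofReal (ψ r) * cellInt b₀ FB r
        * ENNReal.ofReal ((r ^ (n + 1))⁻¹) ≤ KK * (ENNReal.ofReal nuM * SB) := by
    rw [hKK _ FB hw.hψ.ennreal_ofReal hFBm hFBi]
    gcongr
    rw [hSB, ← lintegral_const_mul _ hSBm]
    apply lintegral_mono_ae
    filter_upwards [ae_hyp_mem] with p hp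
    calc _ ≤ ENNReal.ofReal (κ p) * ENNReal.ofReal nuM * FB p := by
            gcongr
            exact hw.up p hp
      _ = _ := by ring
  have hQm : Measurable fun r : ℝ => ENNReal.ofReal (μ * r ^ 2 * ψ r) :=
    ((measurable_const.mul (measurable_id.pow_const 2)).mul hw.hψ).ennreal_ofReal
  have hlow : KK * (ENNReal.ofReal (rho * nuM) * SA) ≤
      ∫⁻ r in Set.Ioi (0 : ℝ), ENNReal.ofReal (μ * r ^ 2 * ψ r) * cellInt b₀ FA r
        * ENNReal.ofReal ((r ^ (n + 1))⁻¹) := by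
    rw [hKK _ FA hQm hFAm hFAi]
    gcongr
    rw [hSA, ← lintegral_const_mul _ hSAm]
    apply lintegral_mono_ae
    filter_upwards [ae_hyp_mem] with p hp
    calc _ = ENNReal.ofReal (κ p) * ENNReal.ofReal (rho * nuM) * FA p := by ring
      _ ≤ _ := by
            gcongr
            exact hw.low p hp
  have hcA : ∀ r : ℝ, 0 < r → cellInt b₀ FA r
      = ∑ i, cellInt (b i) (fun p => ENNReal.ofReal (‖u i p‖ ^ 2)) r := by
    intro r hr
    rw [← cellInt_sub hm hm0 FA hFAm (hper FA hFAi) hr]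
    have e : ∀ i, cellInt (b i) (fun p => ENNReal.ofReal (‖u i p‖ ^ 2)) r
        = cellInt m (fun p => ENNReal.ofReal (‖u i p‖ ^ 2)) r := by
      intro i
      refine (cellInt_sub hm (hmb i) _ ((hum i).norm.pow_const 2).ennreal_ofReal ?_ hr).symm
      intro j z r hr
      rw [huper i j (z, r) hr]
    rw [Finset.sum_congr rfl fun i _ => e i]
    rw [← cellInt_finset_sum m Finset.univ (fun i p => ENNReal.ofReal (‖u i p‖ ^ 2))
      (fun i => ((hum i).norm.pow_const 2).ennreal_ofReal)]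
    congr 1
    funext p
    simp only [hFA]
    rw [ENNReal.ofReal_sum_of_nonneg (fun i _ => by positivity)]
  have hcB : ∀ r : ℝ, 0 < r → cellInt b₀ FB r
      = ∑ i, cellInt (b i) (fun p => ENNReal.ofReal (gsq (u i) p)) r := by
    intro r hr
    rw [← cellInt_sub hm hm0 FB hFBm (hper FB hFBi) hr]
    have e : ∀ i, cellInt (b i) (fun p => ENNReal.ofReal (gsq (u i) p)) r
        = cellInt m (fun p => ENNReal.ofReal (gsq (u i) p)) r := by
      intro i
      refine (cellInt_sub hm (hmb i) _ (measurable_gsq (u i)).ennreal_ofReal ?_ hr).symm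
      intro j z r hr
      have hz : ((z, r) : Pt n) ∈ UH n := hr
      have e1 : ((z + b i j, r) : Pt n) = act (T (b i j)) (z, r) := by
        rw [act_T _ hz]
      rw [e1, ← gsq_comp_act (T_mem_LG _) hz (hdiff i _ (act_mem (T_mem_LG _) hz))]
      have he : (fun q => u i (act (T (b i j)) q)) =ᶠ[𝓝 (z, r)] u i := by
        filter_upwards [isOpen_UH.mem_nhds hz] with q hq
        rw [act_T _ hq]
        exact huper i j q hq
      unfold gsq pd
      rw [he.fderiv_eq]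
    rw [Finset.sum_congr rfl fun i _ => e i]
    rw [← cellInt_finset_sum m Finset.univ (fun i p => ENNReal.ofReal (gsq (u i) p))
      (fun i => (measurable_gsq (u i)).ennreal_ofReal)]
    congr 1
    funext p
    simp only [hFB]
    rw [ENNReal.ofReal_sum_of_nonneg (fun i _ => gsq_nonneg _ _)]
  have hmid : ∫⁻ r in Set.Ioi (0 : ℝ), ENNReal.ofReal (μ * r ^ 2 * ψ r) * cellInt b₀ FA r
        * ENNReal.ofReal ((r ^ (n + 1))⁻¹) ≤
      ∫⁻ r in Set.Ioi (0 : ℝ), ENNReal.ofReal (ψ r) * cellInt b₀ FB r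
        * ENNReal.ofReal ((r ^ (n + 1))⁻¹) := by
    apply setLIntegral_mono' measurableSet_Ioi
    intro r hr
    have hr0 : (0 : ℝ) < r := hr
    gcongr ?_ * _
    rw [hcA r hr, hcB r hr, Finset.mul_sum, Finset.mul_sum]
    refine Finset.sum_le_sum fun i _ => ?_
    have h1 : ENNReal.ofReal (μ * r ^ 2 * ψ r)
        = ENNReal.ofReal (ψ r) * (ENNReal.ofReal (r ^ 2) * ENNReal.ofReal μ) := by
      rw [← ENNReal.ofReal_mul (by positivity), ← ENNReal.ofReal_mul (hw.hψ0 r)]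
      congr 1
      ring
    rw [h1, mul_assoc, mul_assoc]
    gcongr
    refine (mul_le_mul_right (hW i r hr0) _).trans ?_
    unfold cellInt
    rw [← lintegral_const_mul' _ _ ENNReal.ofReal_ne_top]
    apply lintegral_mono
    intro x
    simp only
    rw [← ENNReal.ofReal_mul (by positivity)]
    apply ENNReal.ofReal_le_ofReal
    unfold gsq
    simp only
    have : 0 ≤ r ^ 2 * ‖pd er (u i) (∑ l, x l • b i l, r)‖ ^ 2 := by positivity
    linarith [mul_add (r ^ 2) (∑ k : Fin n, ‖pd (dir k) (u i) (∑ l, x l • b i l, r)‖ ^ 2)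
      (‖pd er (u i) (∑ l, x l • b i l, r)‖ ^ 2)]
  have h1 := hlow.trans (hmid.trans hup)
  have hn0 : ENNReal.ofReal nuM ≠ 0 := by
    simpa using hw.hnuM
  have h2 : ENNReal.ofReal rho * SA ≤ SB := by
    rw [ENNReal.mul_le_mul_iff_right hK0 hKtop, ENNReal.ofReal_mul hrho.le] at h1
    have e : ENNReal.ofReal rho * ENNReal.ofReal nuM * SA
        = ENNReal.ofReal nuM * (ENNReal.ofReal rho * SA) := by ring
    rwa [e, ENNReal.mul_le_mul_iff_right hn0 ENNReal.ofReal_ne_top] at h1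
  have h3 : ENNReal.ofReal rho * SA ≤ ENNReal.ofReal lam.re * SA := h2.trans hE1
  rw [ENNReal.mul_le_mul_iff_left hSA0 hSAtop] at h3
  by_contra hlt
  push Not at hlt
  exact absurd h3 (not_le.2 ((ENNReal.ofReal_lt_ofReal_iff hrho).2 hlt))

theorem pd_congr {f g : Pt n → ℂ} (h : ∀ p ∈ UH n, f p = g p) (e : Pt n) :
    ∀ p ∈ UH n, pd e f p = pd e g p := by
  intro p hp
  have he : f =ᶠ[𝓝 p] g := by
    filter_upwards [isOpen_UH.mem_nhds hp] with q hq using h q hq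
  unfold pd
  rw [he.fderiv_eq]

theorem lap_congr {f g : Pt n → ℂ} (h : ∀ p ∈ UH n, f p = g p) :
    ∀ p ∈ UH n, lap f p = lap g p := by
  intro p hp
  unfold lap
  rw [pd_congr h er p hp, pd_congr (pd_congr h er) er p hp]
  congr 2
  rw [Finset.sum_congr rfl fun k _ => pd_congr (pd_congr h (dir k)) (dir k) p hp]

/-- the dual minimum condition forces linear independence -/
theorem DualMin.li {b : Fin n → E n} {m : ℝ} (hm : 0 < m) (h : DualMin b m) :
    LinearIndependent ℝ b := by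
  rw [linearIndependent_iff_card_eq_finrank_span]
  rw [Fintype.card_fin, Set.finrank]
  by_contra hne
  have hlt : Module.finrank ℝ (Submodule.span ℝ (Set.range b)) < n := by
    refine lt_of_le_of_ne ?_ (fun h => hne h.symm)
    have := Submodule.finrank_le (Submodule.span ℝ (Set.range b))
    simpa using this
  have hS : Submodule.span ℝ (Set.range b) ≠ ⊤ := by
    intro h1
    rw [h1, finrank_top] at hlt
    simp at hlt
  obtain ⟨ξ, hξ, hξ0⟩ : ∃ ξ ∈ (Submodule.span ℝ (Set.range b))ᗮ, ξ ≠ 0 := by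
    by_contra hcon
    push Not at hcon
    apply hS
    rw [← Submodule.orthogonal_eq_bot_iff]
    exact (Submodule.eq_bot_iff _).2 hcon
  have hpos : 0 < ‖ξ‖ := norm_pos_iff.2 hξ0
  set t : ℝ := Real.sqrt (m / 2) / ‖ξ‖ with ht
  have htpos : 0 < t := by positivity
  have h1 := h (t • ξ) (smul_ne_zero htpos.ne' hξ0) (fun i => ⟨0, by
    rw [inner_smul_left, (Submodule.mem_orthogonal' _ _).1 hξ (b i)
      (Submodule.subset_span ⟨i, rfl⟩)]
    simp⟩)
  have h2 : ‖t • ξ‖ ^ 2 = m / 2 := by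
    rw [norm_smul, Real.norm_of_nonneg htpos.le, ht, div_mul_cancel₀ _ hpos.ne',
      Real.sq_sqrt (by positivity)]
  linarith

/-- a common sublattice of the form `N L` -/
theorem common_sublattice {L : AddSubgroup (E n)} {b₀ : Fin n → E n} (hL : EvenLat L b₀)
    {ι : Type} [Fintype ι] {b : ι → Fin n → E n} (hbL : ∀ i j, b i j ∈ L)
    (hb : ∀ i, LinearIndependent ℝ (b i)) :
    ∃ m : Fin n → E n, LinearIndependent ℝ m ∧
      (∀ j, ∃ c : Fin n → ℤ, m j = ∑ l, (c l : ℝ) • b₀ l) ∧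
      ∀ i j, ∃ c : Fin n → ℤ, m j = ∑ l, (c l : ℝ) • b i l := by
  classical
  choose K hK using fun i j => (hL.mem (b i j)).1 (hbL i j)
  let M : ι → Matrix (Fin n) (Fin n) ℤ := fun i => Matrix.of (K i)
  have hM : ∀ i j, b i j = ∑ l, (M i j l : ℝ) • b₀ l := hK
  have hdet : ∀ i, (M i).det ≠ 0 := by
    intro i h0
    obtain ⟨v, hv0, hv⟩ := Matrix.exists_vecMul_eq_zero_iff.2 h0
    apply hv0
    have h1 : ∑ j, (v j : ℝ) • b i j = 0 := by
      simp only [hM, Finset.smul_sum, smul_smul]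
      rw [Finset.sum_comm]
      refine Finset.sum_eq_zero fun l _ => ?_
      rw [← Finset.sum_smul]
      have h2 := congrFun hv l
      simp only [Matrix.vecMul, dotProduct, Pi.zero_apply] at h2
      have h3 : ∑ j, (v j : ℝ) * (M i j l : ℝ) = 0 := by exact_mod_cast h2
      rw [h3, zero_smul]
    funext j
    have h4 := Fintype.linearIndependent_iff.1 (hb i) (fun j => (v j : ℝ)) h1 j
    exact_mod_cast h4
  set N : ℤ := ∏ i, (M i).det with hN
  have hN0 : N ≠ 0 := Finset.prod_ne_zero_iff.2 fun i _ => hdet i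
  have hN0' : (N : ℝ) ≠ 0 := by exact_mod_cast hN0
  have hadj : ∀ i j, (((M i).det : ℤ) : ℝ) • b₀ j
      = ∑ l, (((M i).adjugate j l : ℤ) : ℝ) • b i l := by
    intro i j
    simp only [hM, Finset.smul_sum, smul_smul]
    rw [Finset.sum_comm]
    have h1 := Matrix.adjugate_mul (M i)
    have h2 : ∀ k, ∑ l, (((M i).adjugate j l : ℤ) : ℝ) * (M i l k : ℝ)
        = if j = k then (((M i).det : ℤ) : ℝ) else 0 := by
      intro k
      have h3 := congrFun (congrFun h1 j) k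
      simp only [Matrix.mul_apply, Matrix.smul_apply, Matrix.one_apply, smul_eq_mul] at h3
      have h4 := congrArg (fun z : ℤ => (z : ℝ)) h3
      simp only [Int.cast_sum, Int.cast_mul] at h4
      rw [h4]
      split_ifs <;> simp
    simp only [← Finset.sum_smul, h2]
    simp [ite_smul]
  refine ⟨fun j => (N : ℝ) • b₀ j, ?_, ?_, ?_⟩
  · exact hL.li.units_smul (fun _ => Units.mk0 (N : ℝ) hN0')
  · intro j
    refine ⟨Pi.single j N, ?_⟩
    rw [Finset.sum_eq_single j]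
    · simp
    · intro l _ hl
      simp [Pi.single_eq_of_ne hl]
    · simp
  · intro i j
    refine ⟨fun l => (∏ i' ∈ Finset.univ.erase i, (M i').det) * (M i).adjugate j l, ?_⟩
    have h1 : (N : ℝ) = ((∏ i' ∈ Finset.univ.erase i, (M i').det : ℤ) : ℝ) * ((M i).det : ℤ) := by
      rw [hN, ← Finset.prod_erase_mul _ _ (Finset.mem_univ i)]
      push_cast
      ring
    simp only
    rw [h1, mul_smul, hadj i j, Finset.smul_sum]
    refine Finset.sum_congr rfl fun l _ => ?_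
    rw [smul_smul, Int.cast_mul]

theorem main (hn : 0 < n) {L : AddSubgroup (E n)} {b₀ : Fin n → E n} (hL : EvenLat L b₀)
    {C0 a0 : ℝ} (ha0 : 0 < a0) (hcov : Covers L C0 a0)
    {ψ : ℝ → ℝ} {μ nuM rho m₀ : ℝ} (hrho : 0 < rho) (hw : AWeights L ψ μ nuM rho)
    (hm₀ : 0 < m₀) (hμm : μ ≤ 4 * Real.pi ^ 2 * m₀)
    (Δ : Subgroup (LV n ≃ₗ[ℝ] LV n)) (hfi : Δ.relIndex (OL L) ≠ 0)
    (f : Pt n → ℂ) (hf : ContDiffOn ℝ 2 f (UH n))
    (hinv : ∀ γ ∈ Δ, ∀ p ∈ UH n, f (act γ p) = f p)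
    (hbdd : ∃ B : ℝ, ∀ p ∈ UH n, ‖f p‖ ≤ B)
    (lam : ℂ) (heig : ∀ p ∈ UH n, lap f p = -lam * f p)
    (hcusp : ∀ γ ∈ OL L, ∃ b : Fin n → E n, (∀ i, b i ∈ L ∧ γ * T (b i) * γ⁻¹ ∈ Δ) ∧
      (∀ ξ : E n, ξ ≠ 0 → (∀ i, ∃ k : ℤ, inner ℝ ξ (b i) = k) → m₀ ≤ ‖ξ‖ ^ 2) ∧
      ∀ r : ℝ, 0 < r → ∫ x in Set.Icc (0 : Fin n → ℝ) 1, f (act γ (∑ i, x i • b i, r)) = 0)
    (hne : ∃ p ∈ UH n, f p ≠ 0) : ∃ l : ℝ, rho ≤ l ∧ lam = l := by
  classical
  obtain ⟨B, hB⟩ := hbdd
  set f₀ : Pt n → ℂ := (UH n).indicator f with hf₀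
  have hff : ∀ p ∈ UH n, f₀ p = f p := fun p hp => Set.indicator_of_mem hp f
  have hf₀c : ContDiffOn ℝ 2 f₀ (UH n) := hf.congr hff
  have hf₀m : Measurable f₀ := by
    have := (hf.continuousOn.measurable_piecewise (g := (0 : Pt n → ℂ))
      continuous_zero.continuousOn measurableSet_UH)
    rwa [Set.piecewise_eq_indicator] at this
  have hOL : ∀ γ ∈ OL L, γ ∈ LG n := fun γ hγ => hγ.1
  have hf₀i : ∀ γ ∈ Δ, γ ∈ LG n → ∀ p ∈ UH n, f₀ (act γ p) = f₀ p := by
    intro γ hγ hγ' p hp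
    rw [hff _ (act_mem hγ' hp), hff p hp, hinv γ hγ p hp]
  have hf₀e : WeakEig lam f₀ := by
    apply green hf₀c
    intro p hp
    rw [lap_congr hff p hp, heig p hp, hff p hp]
  let H : Subgroup (OL L) := Δ.subgroupOf (OL L)
  have hHi : H.index ≠ 0 := hfi
  have : H.FiniteIndex := ⟨hHi⟩
  have : Finite (OL L ⧸ H) := Subgroup.finite_quotient_of_finiteIndex
  have : Fintype (OL L ⧸ H) := Fintype.ofFinite _
  let u : (OL L ⧸ H) → Pt n → ℂ := fun q p => f₀ (act ((q.out : OL L) : LV n ≃ₗ[ℝ] LV n)⁻¹ p)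
  have hLGi : ∀ g : OL L, ((g : LV n ≃ₗ[ℝ] LV n))⁻¹ ∈ LG n := fun g => (LG n).inv_mem g.2.1
  -- independence of the representative
  have hrep : ∀ (g : OL L), ∀ p ∈ UH n,
      u (g : OL L ⧸ H) p = f₀ (act (g : LV n ≃ₗ[ℝ] LV n)⁻¹ p) := by
    intro g p hp
    obtain ⟨h, hh⟩ := QuotientGroup.mk_out_eq_mul H g
    simp only [u]
    rw [hh]
    have e : (((g * (h : OL L) : OL L) : LV n ≃ₗ[ℝ] LV n))⁻¹
        = ((h : OL L) : LV n ≃ₗ[ℝ] LV n)⁻¹ * (g : LV n ≃ₗ[ℝ] LV n)⁻¹ := by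
      push_cast
      rw [mul_inv_rev]
    rw [e, act_mul _ (hLGi g) hp]
    apply hf₀i _ _ (hLGi h) _ (act_mem (hLGi g) hp)
    exact Δ.inv_mem h.2
  have hum : ∀ q, Measurable (u q) := fun q => hf₀m.comp (measurable_act _)
  have huc : ∀ q, ContDiffOn ℝ 2 (u q) (UH n) := fun q =>
    hf₀c.comp (contDiffOn_act (hLGi _)) (fun p hp => act_mem (hLGi _) hp)
  have hS : Sys L (OL L ⧸ H) u := by
    refine ⟨huc, ?_⟩
    intro γ hγ
    refine ⟨MulAction.toPerm (⟨γ, hγ⟩⁻¹ : OL L), ?_⟩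
    intro q p hp
    obtain ⟨g, rfl⟩ := QuotientGroup.mk_surjective q
    rw [hrep g _ (act_mem (hOL γ hγ) hp)]
    have e1' : (MulAction.toPerm (⟨γ, hγ⟩⁻¹ : OL L)) ((g : OL L) : OL L ⧸ H)
        = (((⟨γ, hγ⟩⁻¹ : OL L) * g : OL L) : OL L ⧸ H) := rfl
    rw [e1', hrep _ p hp, ← act_mul _ (hOL γ hγ) hp]
    congr 2
  choose b hbL hdual hcus using fun q : OL L ⧸ H =>
    hcusp ((q.out : OL L) : LV n ≃ₗ[ℝ] LV n)⁻¹ ((OL L).inv_mem (q.out : OL L).2)
  have hbli : ∀ q, LinearIndependent ℝ (b q) := fun q => DualMin.li hm₀ (hdual q)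
  have hper : ∀ q, ∀ j, ∀ p ∈ UH n, u q (p.1 + b q j, p.2) = u q p := by
    intro q j p hp
    simp only [u]
    have hl := (hbL q j).2
    rw [inv_inv] at hl
    have hgG : ((q.out : OL L) : LV n ≃ₗ[ℝ] LV n)⁻¹ ∈ OL L := (OL L).inv_mem (q.out : OL L).2
    have hTO : T (b q j) ∈ OL L := T_mem_OL hL (hbL q j).1
    have e : ((q.out : OL L) : LV n ≃ₗ[ℝ] LV n)⁻¹ * T (b q j)
        = (((q.out : OL L) : LV n ≃ₗ[ℝ] LV n)⁻¹ * T (b q j) *
            ((q.out : OL L) : LV n ≃ₗ[ℝ] LV n))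
          * ((q.out : OL L) : LV n ≃ₗ[ℝ] LV n)⁻¹ := by group
    rw [← act_T _ hp, ← act_mul _ (T_mem_LG _) hp, e, act_mul _ (hOL _ hgG) hp]
    refine hf₀i _ hl ?_ _ (act_mem (hOL _ hgG) hp)
    exact (LG n).mul_mem ((LG n).mul_mem (hOL _ hgG) (T_mem_LG _)) (q.out : OL L).2.1
  have hmean : ∀ q, ∀ r : ℝ, 0 < r →
      ∫ x in Set.Icc (0 : Fin n → ℝ) 1, u q (∑ i, x i • b q i, r) = 0 := by
    intro q r hr
    rw [← hcus q r hr]
    congr 1
    funext x
    exact hff _ (act_mem (hLGi _) hr)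
  obtain ⟨m, hm, hm0, hmb⟩ := common_sublattice hL (fun q j => (hbL q j).1) hbli
  have huB : ∀ q, ∀ p ∈ UH n, ‖u q p‖ ≤ B := by
    intro q p hp
    simp only [u]
    rw [hff _ (act_mem (hLGi _) hp)]
    exact hB _ (act_mem (hLGi _) hp)
  have hne' : ∃ q, ∃ p ∈ UH n, u q p ≠ 0 := by
    obtain ⟨p, hp, hfp⟩ := hne
    refine ⟨((1 : OL L) : OL L ⧸ H), p, hp, ?_⟩
    rw [hrep 1 p hp, Subgroup.coe_one, inv_one, act_one hp, hff p hp]
    exact hfp
  obtain ⟨h1, h2⟩ := main_sys hn hL ha0 hcov hrho hw hS hum hm hm0 hmb hper huB lam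
    (fun q => weakEig_comp (hLGi _) (hf₀c.of_le (by norm_num)) hf₀e)
    (fun q r hr => (mul_le_mul_left (ENNReal.ofReal_le_ofReal hμm) _).trans
      (wirtinger (hbli q) hm₀ (hdual q) ((huc q).of_le (by norm_num))
      (hper q) hr (hmean q r hr))) hne'
  refine ⟨lam.re, h2, ?_⟩
  apply Complex.ext <;> simp [h1]

/-- the weights used for `E₈` -/
theorem weights_E8 :
    AWeights E8 psi2 (19739 / 1000) (1171 / 1000) 16 where
  hψ := measurable_psi2
  hψ0 := psi2_nonneg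
  hμ := by norm_num
  hnuM := by norm_num
  up := fun p hp => upper_E8b hp
  low := fun p hp => lower_E8b_aux (fun hg w _ hp => uval_act hg w hp)
    (fun hg _ hp => act_mem hg hp) (fun hv => T_mem_OL evenLat_E8.choose_spec hv)
    (fun hp => reduce_E8 hp) hp

theorem main_E8 (Δ : Subgroup (LV 8 ≃ₗ[ℝ] LV 8)) (hfi : Δ.relIndex (OL E8) ≠ 0)
    (f : Pt 8 → ℂ) (hf : ContDiffOn ℝ 2 f (UH 8))
    (hinv : ∀ γ ∈ Δ, ∀ p ∈ UH 8, f (act γ p) = f p)
    (hbdd : ∃ B : ℝ, ∀ p ∈ UH 8, ‖f p‖ ≤ B)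
    (lam : ℂ) (heig : ∀ p ∈ UH 8, lap f p = -lam * f p)
    (hcusp : ∀ γ ∈ OL E8, ∃ b : Fin 8 → E 8, (∀ i, b i ∈ E8 ∧ γ * T (b i) * γ⁻¹ ∈ Δ) ∧
      (∀ ξ : E 8, ξ ≠ 0 → (∀ i, ∃ k : ℤ, inner ℝ ξ (b i) = k) → 1 / 2 ≤ ‖ξ‖ ^ 2) ∧
      ∀ r : ℝ, 0 < r → ∫ x in Set.Icc (0 : Fin 8 → ℝ) 1, f (act γ (∑ i, x i • b i, r)) = 0)
    (hne : ∃ p ∈ UH 8, f p ≠ 0) : ∃ l : ℝ, 16 ≤ l ∧ lam = l := by
  obtain ⟨b₀, hb₀⟩ := evenLat_E8
  refine main (by norm_num) hb₀ one_pos covers_E8 (by norm_num) weights_E8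
    (by norm_num : (0 : ℝ) < 1 / 2) ?_ Δ hfi f hf hinv hbdd lam heig hcusp hne
  have := Real.pi_gt_d6
  nlinarith

end Pool.Agent.Helper10.Lor
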