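import Pool.Agent.Helper10.Lor.Lib
import Pool.Agent.Helper13.Lor.ALG
import Pool.Agent.Helper13.Lor.Energy
import Pool.Agent.Helper50.Lor.UNF2
import Pool.Agent.Helper50.Lor.DIFF
import Pool.Agent.Helper64.Lor.DISC
import Pool.Agent.Helper79.Lor.TOR
import Pool.Agent.Helper77.Lor.WIR
import Pool.Agent.Helper77.Lor.LAT8
import Pool.Agent.Helper77.Lor.LOW8
import Pool.Agent.Helper86.Lor.RED8
import Pool.Agent.Helper34.Lor.UP8

set_option autoImplicit false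

/-!
# All modules collected under one namespace
-/

namespace Pool.Agent.Helper10.Lor

open MeasureTheory Topology

variable {n : ℕ}

/-! ## Module ALG : algebra of the action -/

/-- `-form` of two points of the hyperboloid -/
theorem form_vec {p q : Pt n} (hp : p ∈ UH n) (hq : q ∈ UH n) :
    form (vec p) (vec q) = -(‖p.1 - q.1‖ ^ 2 + p.2 ^ 2 + q.2 ^ 2) / (2 * p.2 * q.2) :=
  Pool.Agent.Helper13.Lor.form_vec hp hq

theorem act_mem {g : LV n ≃ₗ[ℝ] LV n} (hg : g ∈ LG n) {p : Pt n} (hp : p ∈ UH n) :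
    act g p ∈ UH n :=
  Pool.Agent.Helper13.Lor.act_mem hg hp

theorem vec_act {g : LV n ≃ₗ[ℝ] LV n} (hg : g ∈ LG n) {p : Pt n} (hp : p ∈ UH n) :
    vec (act g p) = g (vec p) :=
  Pool.Agent.Helper13.Lor.vec_act hg hp

theorem act_mul (g : LV n ≃ₗ[ℝ] LV n) {h : LV n ≃ₗ[ℝ] LV n} (hh : h ∈ LG n) {p : Pt n}
    (hp : p ∈ UH n) : act (g * h) p = act g (act h p) :=
  Pool.Agent.Helper13.Lor.act_mul g hh hp

theorem act_one {p : Pt n} (hp : p ∈ UH n) : act (1 : LV n ≃ₗ[ℝ] LV n) p = p :=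
  Pool.Agent.Helper13.Lor.act_one hp

theorem act_T (v : E n) {p : Pt n} (hp : p ∈ UH n) : act (T v) p = (p.1 + v, p.2) :=
  Pool.Agent.Helper13.Lor.act_T v hp

theorem T_mem_LG (v : E n) : T v ∈ LG n :=
  Pool.Agent.Helper13.Lor.T_mem_LG v

theorem T_mem_OL {L : AddSubgroup (E n)} {b : Fin n → E n} (hL : EvenLat L b) {v : E n}
    (hv : v ∈ L) : T v ∈ OL L :=
  Pool.Agent.Helper13.Lor.T_mem_OL hL hv

theorem T_add (v w : E n) : T (v + w) = T v * T w :=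
  Pool.Agent.Helper13.Lor.T_add v w

/-- the action multiplies Euclidean distances by the square root of the product of the height
ratios -/
theorem dist_act {g : LV n ≃ₗ[ℝ] LV n} (hg : g ∈ LG n) {p q : Pt n} (hp : p ∈ UH n)
    (hq : q ∈ UH n) :
    (‖(act g p).1 - (act g q).1‖ ^ 2 + ((act g p).2 - (act g q).2) ^ 2) * (p.2 * q.2)
      = (‖p.1 - q.1‖ ^ 2 + (p.2 - q.2) ^ 2) * ((act g p).2 * (act g q).2) :=
  Pool.Agent.Helper13.Lor.dist_act hg hp hq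

/-- heights and cusp vectors -/
theorem uval_act {g : LV n ≃ₗ[ℝ] LV n} (hg : g ∈ LG n) (w : LV n) {p : Pt n} (hp : p ∈ UH n) :
    uval w (act g p) = uval (g⁻¹ w) p :=
  Pool.Agent.Helper13.Lor.uval_act hg w hp

theorem uval_w0 {p : Pt n} (hp : p ∈ UH n) : uval w0 p = 1 / p.2 :=
  Pool.Agent.Helper13.Lor.uval_w0 hp

/-- reverse Cauchy-Schwarz inequality -/
theorem rcs (v : LV n) {p : Pt n} (hp : p ∈ UH n) : -form v v ≤ (form (vec p) v) ^ 2 :=
  Pool.Agent.Helper13.Lor.rcs v hp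

/-- the value `uval` of a nonzero isotropic lattice vector of the future cone is positive -/
theorem uval_pos {L : AddSubgroup (E n)} {w : LV n} (hw : w ∈ Orb L) {p : Pt n}
    (hp : p ∈ UH n) : 0 < uval w p :=
  Pool.Agent.Helper13.Lor.uval_pos hw hp

/-! ## Module DIFF : differential geometry of the action -/

theorem contDiffOn_act {g : LV n ≃ₗ[ℝ] LV n} (hg : g ∈ LG n) : ContDiffOn ℝ 2 (act g) (UH n) :=
  Pool.Agent.Helper50.Lor.contDiffOn_act hg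

theorem measurable_act (g : LV n ≃ₗ[ℝ] LV n) : Measurable (act g) :=
  Pool.Agent.Helper50.Lor.measurable_act g

/-- isometry: the bilinear gradient product is invariant -/
theorem gdot_comp_act {g : LV n ≃ₗ[ℝ] LV n} (hg : g ∈ LG n) {p : Pt n} (hp : p ∈ UH n)
    {f h : Pt n → ℂ} (hf : DifferentiableAt ℝ f (act g p)) (hh : DifferentiableAt ℝ h (act g p)) :
    gdot (fun q => f (act g q)) (fun q => h (act g q)) p = gdot f h (act g p) :=
  Pool.Agent.Helper50.Lor.gdot_comp_act hg hp hf hh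

theorem gsq_comp_act {g : LV n ≃ₗ[ℝ] LV n} (hg : g ∈ LG n) {p : Pt n} (hp : p ∈ UH n)
    {f : Pt n → ℂ} (hf : DifferentiableAt ℝ f (act g p)) :
    gsq (fun q => f (act g q)) p = gsq f (act g p) :=
  Pool.Agent.Helper50.Lor.gsq_comp_act hg hp hf

/-- invariance of the hyperbolic measure -/
theorem measurePreserving_act {g : LV n ≃ₗ[ℝ] LV n} (hg : g ∈ LG n) :
    MeasurePreserving (act g) (hyp n) (hyp n) :=
  Pool.Agent.Helper50.Lor.measurePreserving_act hg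

/-! ## Module DISC : discreteness and partition of unity -/

theorem countable_OL {L : AddSubgroup (E n)} {b : Fin n → E n} (hL : EvenLat L b) :
    Countable (OL L) :=
  Pool.Agent.Helper64.Lor.countable_OL hL

theorem local_finite {L : AddSubgroup (E n)} {b : Fin n → E n} (hL : EvenLat L b) {p : Pt n}
    (hp : p ∈ UH n) (C a : ℝ) (ha : 0 < a) :
    ∃ U ∈ 𝓝 p, U ⊆ UH n ∧
      {γ : OL L | ∃ q ∈ U, ‖(act γ q).1‖ ≤ C ∧ a ≤ (act γ q).2}.Finite :=
  Pool.Agent.Helper64.Lor.local_finite hL hp C a ha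

theorem exists_kap {L : AddSubgroup (E n)} {b : Fin n → E n} (hL : EvenLat L b) {C a : ℝ}
    (ha : 0 < a) (hcov : Covers L C a) : ∃ (κ : Pt n → ℝ) (C' a' : ℝ), Kap L κ C' a' :=
  Pool.Agent.Helper64.Lor.exists_kap hL ha hcov

/-- inputs of the unfolding module -/
theorem inp : Pool.Agent.Helper50.Lor.Inp n where
  meas := measurable_act
  mp := fun _ hg => measurePreserving_act hg
  count := fun _ _ hL => countable_OL hL
  lf := fun _ _ hL _ hp C a ha => local_finite hL hp C a ha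

/-- inputs of the energy module -/
theorem dpn : Pool.Agent.Helper13.Lor.Dp n where
  cd := fun _ hg => contDiffOn_act hg
  gd := fun _ hg _ hp _ _ hf hh => gdot_comp_act hg hp hf hh
  mp := fun _ hg => measurePreserving_act hg

theorem locFin : Pool.Agent.Helper86.Lor.LocFin := fun hL _ hp C a ha =>
  local_finite hL hp C a ha

/-! ## Module UNF : unfolding -/

theorem unfold {L : AddSubgroup (E n)} {b : Fin n → E n} (hL : EvenLat L b) {κ : Pt n → ℝ}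
    {C a : ℝ} (hK : Kap L κ C a)
    (η F : Pt n → ENNReal) (hη : Measurable η) (hF : Measurable F)
    (hinv : ∀ γ ∈ OL L, ∀ p ∈ UH n, F (act γ p) = F p) :
    ∫⁻ p, η p * F p ∂(hyp n)
      = ∫⁻ p, ENNReal.ofReal (κ p) * (∑' γ : OL L, η (act γ p)) * F p ∂(hyp n) :=
  Pool.Agent.Helper50.Lor.unfold_aux inp hL hK η F hη hF hinv

/-- strip unfolding (cusp cell), with an unspecified constant `K` -/
theorem strip_unfold {L : AddSubgroup (E n)} {b : Fin n → E n} (hL : EvenLat L b)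
    {κ : Pt n → ℝ} {C a : ℝ} (hK : Kap L κ C a) :
    ∃ K : ENNReal, K ≠ 0 ∧ K ≠ ⊤ ∧ ∀ (ψ : ℝ → ENNReal) (F : Pt n → ENNReal), Measurable ψ →
      Measurable F → (∀ γ ∈ OL L, ∀ p ∈ UH n, F (act γ p) = F p) →
      ∫⁻ r in Set.Ioi (0 : ℝ), ψ r * cellInt b F r * ENNReal.ofReal ((r ^ (n + 1))⁻¹)
        = K * ∫⁻ p, ENNReal.ofReal (κ p) * (∑' w : Orb L, ψ (1 / uval w p)) * F p ∂(hyp n) :=
  Pool.Agent.Helper50.Lor.strip_unfold_aux inp hL hK

/-! ## Module GREEN, ENERGY : energy identity for square-integrable eigen-systems -/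

/-- Green's formula -/
theorem green {u : Pt n → ℂ} (hu : ContDiffOn ℝ 2 u (UH n)) (lam : ℂ)
    (heig : ∀ p ∈ UH n, lap u p = -lam * u p) : WeakEig lam u :=
  Pool.Agent.Helper13.Lor.green hu lam heig

theorem weakEig_comp {g : LV n ≃ₗ[ℝ] LV n} (hg : g ∈ LG n) {u : Pt n → ℂ}
    (hu : ContDiffOn ℝ 1 u (UH n)) {lam : ℂ} (h : WeakEig lam u) :
    WeakEig lam (fun p => u (act g p)) :=
  Pool.Agent.Helper13.Lor.weakEig_comp_aux dpn hg hu h

theorem energy {L : AddSubgroup (E n)} {b : Fin n → E n} (hL : EvenLat L b) {κ : Pt n → ℝ}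
    {C a : ℝ} (hK : Kap L κ C a)
    {ι : Type} [Fintype ι] {u : ι → Pt n → ℂ} (hS : Sys L ι u) (lam : ℂ)
    (heig : ∀ i, WeakEig lam (u i))
    (hfin : ∫⁻ p, ENNReal.ofReal (κ p) * ENNReal.ofReal (∑ i, ‖u i p‖ ^ 2) ∂(hyp n) ≠ ⊤) :
    (∫⁻ p, ENNReal.ofReal (κ p) * ENNReal.ofReal (∑ i, gsq (u i) p) ∂(hyp n)
      ≤ ENNReal.ofReal lam.re *
        ∫⁻ p, ENNReal.ofReal (κ p) * ENNReal.ofReal (∑ i, ‖u i p‖ ^ 2) ∂(hyp n)) ∧
    (lam.im = 0 ∨
      ∫⁻ p, ENNReal.ofReal (κ p) * ENNReal.ofReal (∑ i, ‖u i p‖ ^ 2) ∂(hyp n) = 0) :=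
  Pool.Agent.Helper13.Lor.energy_aux dpn (fun p hp C a ha => local_finite hL hp C a ha) hK hS lam heig hfin

/-! ## Module TOR : torus averages -/

/-- averages over the cell of a lattice and over the cell of a sublattice agree -/
theorem cellInt_sub {b b' : Fin n → E n} (hb' : LinearIndependent ℝ b')
    (hsub : ∀ i, ∃ m : Fin n → ℤ, b' i = ∑ j, (m j : ℝ) • b j)
    (F : Pt n → ENNReal) (hF : Measurable F)
    (hper : ∀ i, ∀ z : E n, ∀ r : ℝ, 0 < r → F (z + b i, r) = F (z, r)) {r : ℝ}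
    (hr : 0 < r) : cellInt b' F r = cellInt b F r :=
  Pool.Agent.Helper79.Lor.cellInt_sub hb' hsub F hF hper hr

/-! ## Module WIR : Wirtinger inequality on the torus `ℝⁿ / ℤb₁ + ... + ℤbₙ` -/

theorem wirtinger {b : Fin n → E n} (hb : LinearIndependent ℝ b) {m : ℝ} (hm : 0 < m)
    (hdual : DualMin b m) {u : Pt n → ℂ}
    (hu : ContDiffOn ℝ 1 u (UH n))
    (hper : ∀ i, ∀ p ∈ UH n, u (p.1 + b i, p.2) = u p) {r : ℝ} (hr : 0 < r)
    (hmean : ∫ x in Set.Icc (0 : Fin n → ℝ) 1, u (∑ i, x i • b i, r) = 0) :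
    ENNReal.ofReal (4 * Real.pi ^ 2 * m) *
        cellInt b (fun p => ENNReal.ofReal (‖u p‖ ^ 2)) r
      ≤ cellInt b (fun p => ENNReal.ofReal (∑ k : Fin n, ‖pd (dir k) u p‖ ^ 2)) r :=
  Pool.Agent.Helper77.Lor.wirtinger hb hm hdual hu hper hr hmean

/-! ## Modules for `E₈` -/

/-- module LAT8 -/
theorem evenLat_E8 : ∃ b : Fin 8 → E 8, EvenLat E8 b :=
  Pool.Agent.Helper77.Lor.evenLat_E8

/-- module RED8: reduction; `z` lies in the simplex with vertices `0, e₁+eᵢ, (1/2,...,1/2)` or in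
the cross polytope with vertices `e₁ ± eᵢ` -/
theorem reduce_E8 {p : Pt 8} (hp : p ∈ UH 8) : ∃ γ ∈ OL E8,
    (∀ w ∈ Orb E8, 1 / (act γ p).2 ≤ uval w (act γ p)) ∧ ∃ z : Fin 8 → ℝ,
    (∀ i, z i = (act γ p).1 i) ∧
      ((|z 0 - 1| + |z 1| + |z 2| + |z 3| + |z 4| + |z 5| + |z 6| + |z 7| ≤ 1) ∨
       ∃ l : Fin 9 → ℝ, (∀ j, 0 ≤ l j) ∧ l 0 + l 1 + l 2 + l 3 + l 4 + l 5 + l 6 + l 7 + l 8 = 1 ∧
        z 0 = l 1 + l 2 + l 3 + l 4 + l 5 + l 6 + l 7 + l 8 / 2 ∧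
        z 1 = l 1 + l 8 / 2 ∧ z 2 = l 2 + l 8 / 2 ∧ z 3 = l 3 + l 8 / 2 ∧ z 4 = l 4 + l 8 / 2 ∧
        z 5 = l 5 + l 8 / 2 ∧ z 6 = l 6 + l 8 / 2 ∧ z 7 = l 7 + l 8 / 2) :=
  Pool.Agent.Helper86.Lor.reduce_E8_aux locFin hp

theorem covers_E8 : Covers E8 3 1 :=
  Pool.Agent.Helper86.Lor.covers_E8_aux locFin

/-- module UP8 -/
theorem upper_E8 {p : Pt 8} (hp : p ∈ UH 8) :
    ∑' w : Orb E8, ENNReal.ofReal (psi (106 / 100) (1 / uval w p))
      ≤ ENNReal.ofReal (112 / 100) :=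
  Pool.Agent.Helper34.Lor.upper_E8 hp

/-- module LOW8 -/
theorem lower_E8 {p : Pt 8} (hp : p ∈ UH 8) :
    ENNReal.ofReal (16 * (112 / 100)) ≤
      ∑' w : Orb E8, ENNReal.ofReal (3947 / 100 * (1 / uval w p) ^ 2 *
        psi (106 / 100) (1 / uval w p)) :=
  Pool.Agent.Helper77.Lor.lower_E8_aux (fun hg w _ hp => uval_act hg w hp) (fun hg _ hp => act_mem hg hp) (fun hv => T_mem_OL evenLat_E8.choose_spec hv) (fun hp => reduce_E8 hp) hp

end Pool.Agent.Helper10.Lor
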