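import Mathlib

set_option autoImplicit false

/-!
# The upper half-space model of hyperbolic `(n+1)`-space and its isometries as Lorentz
transformations; integral orthogonal groups of Lorentzian lattices `U ⊕ L`

Points are pairs `(z, r)` with `z ∈ ℝⁿ` and `r` a real number; hyperbolic `(n+1)`-space is the
part `0 < r`.
-/

namespace Pool.Agent.Helper10.Lor

open MeasureTheory

/-- Euclidean space `ℝⁿ` -/
abbrev E (n : ℕ) := EuclideanSpace ℝ (Fin n)

/-- ambient space `ℝⁿ × ℝ` of the upper half-space model -/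
abbrev Pt (n : ℕ) := E n × ℝ

/-- Lorentz space `ℝ × ℝ × ℝⁿ` -/
abbrev LV (n : ℕ) := ℝ × ℝ × E n

/-- the upper half-space (hyperbolic `(n+1)`-space) -/
def UH (n : ℕ) : Set (Pt n) := {p | 0 < p.2}

/-- the Lorentzian bilinear form `⟨v, v'⟩ - a b' - b a'` of `(a, b, v)` and `(a', b', v')` -/
noncomputable def form {n : ℕ} (x y : LV n) : ℝ :=
  inner ℝ x.2.2 y.2.2 - x.1 * y.2.1 - x.2.1 * y.1

/-- the vector of norm `-1` representing `(z, r)`: `(1, (|z|² + r²) / 2, z) / r` -/
noncomputable def vec {n : ℕ} (p : Pt n) : LV n :=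
  (1 / p.2, (‖p.1‖ ^ 2 + p.2 ^ 2) / (2 * p.2), (1 / p.2) • p.1)

/-- the point `(v / a, 1 / a)` represented by the vector `(a, b, v)` of norm `-1` -/
noncomputable def pnt {n : ℕ} (x : LV n) : Pt n := ((1 / x.1) • x.2.2, 1 / x.1)

/-- the action of a linear transformation of Lorentz space on the upper half-space -/
noncomputable def act {n : ℕ} (g : LV n ≃ₗ[ℝ] LV n) (p : Pt n) : Pt n := pnt (g (vec p))

/-- the Lorentz transformations which preserve the future cone, i.e. the full isometry group of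
hyperbolic `(n+1)`-space -/
def LG (n : ℕ) : Subgroup (LV n ≃ₗ[ℝ] LV n) where
  carrier := {g | (∀ x y, form (g x) (g y) = form x y) ∧
    ∀ x, form x x < 0 → 0 < x.1 → 0 < (g x).1}
  mul_mem' := by
    rintro g h ⟨hg1, hg2⟩ ⟨hh1, hh2⟩
    refine ⟨fun x y => ?_, fun x hx hx1 => ?_⟩
    · rw [LinearEquiv.mul_apply, LinearEquiv.mul_apply, hg1, hh1]
    · rw [LinearEquiv.mul_apply]
      exact hg2 _ (by rwa [hh1]) (hh2 x hx hx1)
  one_mem' := ⟨fun x y => rfl, fun x _ hx1 => hx1⟩
  inv_mem' := by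
    rintro g ⟨hg1, hg2⟩
    have key : ∀ x, g (g⁻¹ x) = x := fun x => g.apply_symm_apply x
    refine ⟨fun x y => ?_, fun x hx hx1 => ?_⟩
    · rw [← hg1 (g⁻¹ x) (g⁻¹ y), key, key]
    · have hy : form (g⁻¹ x) (g⁻¹ x) < 0 := by
        rw [← hg1 (g⁻¹ x) (g⁻¹ x), key]; exact hx
      rcases lt_trichotomy (g⁻¹ x).1 0 with h | h | h
      · exfalso
        have h1 : form (-(g⁻¹ x)) (-(g⁻¹ x)) < 0 := by
          have e : form (-(g⁻¹ x)) (-(g⁻¹ x)) = form (g⁻¹ x) (g⁻¹ x) := by
            simp [form]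
          rw [e]; exact hy
        have h2 := hg2 (-(g⁻¹ x)) h1 (by rw [Prod.fst_neg]; linarith)
        rw [map_neg, key, Prod.fst_neg] at h2
        linarith
      · exfalso
        have h0 : 0 ≤ form (g⁻¹ x) (g⁻¹ x) := by
          unfold form
          rw [h]
          have := real_inner_self_nonneg (x := (g⁻¹ x).2.2)
          linarith
        linarith
      · exact h

/-- the lattice `ℤ ⊕ ℤ ⊕ L` in Lorentz space -/
def lat {n : ℕ} (L : AddSubgroup (E n)) : Set (LV n) :=
  {x | (∃ a : ℤ, x.1 = a) ∧ (∃ b : ℤ, x.2.1 = b) ∧ x.2.2 ∈ L}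

/-- the group `O⁺(U ⊕ L)` of all Lorentz transformations which preserve the future cone and the
lattice `U ⊕ L = ℤ ⊕ ℤ ⊕ L` -/
def OL {n : ℕ} (L : AddSubgroup (E n)) : Subgroup (LV n ≃ₗ[ℝ] LV n) where
  carrier := {g | g ∈ LG n ∧ ∀ x, g x ∈ lat L ↔ x ∈ lat L}
  mul_mem' := by
    rintro g h ⟨hg1, hg2⟩ ⟨hh1, hh2⟩
    refine ⟨(LG n).mul_mem hg1 hh1, fun x => ?_⟩
    rw [LinearEquiv.mul_apply, hg2, hh2]
  one_mem' := ⟨(LG n).one_mem, fun x => Iff.rfl⟩
  inv_mem' := by
    rintro g ⟨hg1, hg2⟩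
    refine ⟨(LG n).inv_mem hg1, fun x => ?_⟩
    have key : g (g⁻¹ x) = x := g.apply_symm_apply x
    rw [← hg2 (g⁻¹ x), key]

/-- the translation `(z, r) ↦ (z + v, r)` (an Eichler transformation) -/
noncomputable def T {n : ℕ} (v : E n) : LV n ≃ₗ[ℝ] LV n where
  toFun x := (x.1, x.2.1 + inner ℝ x.2.2 v + x.1 * (‖v‖ ^ 2 / 2), x.2.2 + x.1 • v)
  map_add' x y := by
    refine Prod.ext ?_ (Prod.ext ?_ ?_)
    · simp
    · simp only [Prod.fst_add, Prod.snd_add, inner_add_left]; ring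
    · simp only [Prod.fst_add, Prod.snd_add, add_smul]; abel
  map_smul' c x := by
    refine Prod.ext ?_ (Prod.ext ?_ ?_)
    · simp
    · simp only [Prod.smul_fst, Prod.smul_snd, smul_eq_mul, inner_smul_left, RingHom.id_apply,
        conj_trivial]
      ring
    · simp only [Prod.smul_fst, Prod.smul_snd, smul_eq_mul, RingHom.id_apply, smul_add, mul_smul]
  invFun x := (x.1, x.2.1 - inner ℝ x.2.2 v + x.1 * (‖v‖ ^ 2 / 2), x.2.2 - x.1 • v)
  left_inv x := by
    refine Prod.ext ?_ (Prod.ext ?_ ?_)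
    · simp
    · simp only [inner_add_left, inner_smul_left, real_inner_self_eq_norm_sq, conj_trivial]
      ring
    · simp
  right_inv x := by
    refine Prod.ext ?_ (Prod.ext ?_ ?_)
    · simp
    · simp only [inner_sub_left, inner_smul_left, real_inner_self_eq_norm_sq, conj_trivial]
      ring
    · simp

/-- the coordinate directions of `ℝⁿ` in `ℝⁿ × ℝ` -/
noncomputable def dir {n : ℕ} (k : Fin n) : Pt n := (EuclideanSpace.single k 1, 0)

/-- the vertical direction -/
def er {n : ℕ} : Pt n := (0, 1)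

/-- directional derivative -/
noncomputable def pd {n : ℕ} (e : Pt n) (f : Pt n → ℂ) (p : Pt n) : ℂ := fderiv ℝ f p e

/-- hyperbolic Laplacian `r² (∑ of the n+1 second coordinate derivatives) - (n-1) r ∂/∂r` -/
noncomputable def lap {n : ℕ} (f : Pt n → ℂ) (p : Pt n) : ℂ :=
  (p.2 : ℂ) ^ 2 * ((∑ k : Fin n, pd (dir k) (pd (dir k) f) p) + pd er (pd er f) p)
    - ((n : ℂ) - 1) * (p.2 : ℂ) * pd er f p

/-- the root lattice `E₈`: all coordinates integers or all coordinates halves of odd integers,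
with even coordinate sum -/
def E8 : AddSubgroup (E 8) where
  carrier := {x | ((∀ i, ∃ m : ℤ, x i = m) ∨ ∀ i, ∃ m : ℤ, x i = m + 1 / 2) ∧
    ∃ m : ℤ, ∑ i, x i = 2 * m}
  add_mem' := by
    rintro x y ⟨hx, a, ha⟩ ⟨hy, b, hb⟩
    refine ⟨?_, a + b, ?_⟩
    · rcases hx with hx | hx <;> rcases hy with hy | hy
      · left
        intro i
        obtain ⟨m, hm⟩ := hx i
        obtain ⟨k, hk⟩ := hy i
        exact ⟨m + k, by rw [PiLp.add_apply, hm, hk]; push_cast; ring⟩
      · right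
        intro i
        obtain ⟨m, hm⟩ := hx i
        obtain ⟨k, hk⟩ := hy i
        exact ⟨m + k, by rw [PiLp.add_apply, hm, hk]; push_cast; ring⟩
      · right
        intro i
        obtain ⟨m, hm⟩ := hx i
        obtain ⟨k, hk⟩ := hy i
        exact ⟨m + k, by rw [PiLp.add_apply, hm, hk]; push_cast; ring⟩
      · left
        intro i
        obtain ⟨m, hm⟩ := hx i
        obtain ⟨k, hk⟩ := hy i
        exact ⟨m + k + 1, by rw [PiLp.add_apply, hm, hk]; push_cast; ring⟩
    · simp only [PiLp.add_apply, Finset.sum_add_distrib, ha, hb]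
      push_cast; ring
  zero_mem' := ⟨Or.inl fun i => ⟨0, by simp⟩, 0, by simp⟩
  neg_mem' := by
    rintro x ⟨hx, a, ha⟩
    refine ⟨?_, -a, ?_⟩
    · rcases hx with hx | hx
      · left
        intro i
        obtain ⟨m, hm⟩ := hx i
        exact ⟨-m, by rw [PiLp.neg_apply, hm]; push_cast; ring⟩
      · right
        intro i
        obtain ⟨m, hm⟩ := hx i
        exact ⟨-m - 1, by rw [PiLp.neg_apply, hm]; push_cast; ring⟩
    · simp only [PiLp.neg_apply, Finset.sum_neg_distrib, ha]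
      push_cast; ring

end Pool.Agent.Helper10.Lor
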