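import Pool.Agent.Helper10.Lor.Psi2

set_option autoImplicit false

/-!
# Numerical lemmas for the second certificate of `E₈`
-/

namespace Pool.Agent.Helper10.Lor

/-- `8 (c - u)²` is below `ψ(u) / u²`, polynomial form for `u ≤ 23/25` -/
theorem num_a {u : ℝ} (h1 : 50 / 69 ≤ u) (h2 : u ≤ 23 / 25) :
    8 * u ^ 2 * (213 / 200 - u) ^ 2 ≤ 1847 / 1000 - 185 / 100 * u := by
  rcases le_total u (4 / 5) with h | h
  · nlinarith [mul_nonneg (sub_nonneg.2 h1) (sub_nonneg.2 h), sq_nonneg (u - 77 / 100),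
      mul_nonneg (mul_nonneg (sub_nonneg.2 h1) (sub_nonneg.2 h)) (sq_nonneg (u - 77 / 100)),
      mul_nonneg (mul_nonneg (sub_nonneg.2 h1) (sub_nonneg.2 h)) (sub_nonneg.2 h1)]
  · nlinarith [mul_nonneg (sub_nonneg.2 h) (sub_nonneg.2 h2), sq_nonneg (u - 86 / 100),
      mul_nonneg (mul_nonneg (sub_nonneg.2 h) (sub_nonneg.2 h2)) (sq_nonneg (u - 86 / 100)),
      mul_nonneg (mul_nonneg (sub_nonneg.2 h) (sub_nonneg.2 h2)) (sub_nonneg.2 h)]

/-- the same for `23/25 ≤ u` -/
theorem num_b {u : ℝ} (h1 : 23 / 25 ≤ u) (h2 : u ≤ 213 / 200) :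
    8 * u ^ 2 * (213 / 200 - u) ≤ 1 := by
  nlinarith [mul_nonneg (sub_nonneg.2 h1) (sub_nonneg.2 h2), sq_nonneg (u - 23 / 25),
    mul_nonneg (mul_nonneg (sub_nonneg.2 h1) (sub_nonneg.2 h2)) (sub_nonneg.2 h1)]

/-- lemma L1 -/
theorem G2_L1 {u : ℝ} (h1 : 50 / 69 ≤ u) (h2 : u ≤ 213 / 200) :
    19739 / 1000 * (8 * (213 / 200 - u) ^ 2) ≤ G2 u := by
  have hu : 7 / 10 ≤ u := by linarith
  have hu0 : 0 < u := by linarith
  rcases le_total u (23 / 25) with h | h
  · refine le_trans (mul_le_mul_of_nonneg_left ?_ (by norm_num)) (G2_le2 hu)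
    rw [le_div_iff₀ (by positivity)]
    linarith [num_a h1 h]
  · refine le_trans (mul_le_mul_of_nonneg_left ?_ (by norm_num)) (G2_le1 hu)
    rw [le_div_iff₀ (by positivity)]
    nlinarith [num_b h h2, mul_nonneg (sub_nonneg.2 h2) (sub_nonneg.2 (num_b h h2))]

/-- lemma L2 : near vertices when `213/200 ≤ U` -/
theorem G2_L2 {U u : ℝ} (hU1 : 213 / 200 ≤ U) (hU2 : U ≤ 138 / 100) (h1 : 50 / 69 ≤ u)
    (h2 : u ≤ U) :
    19739 / 1000 * (116 / 100 * (U - u) * (213 / 200 - u) / (U - 23 / 25)) ≤ G2 u := by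
  have hu : 7 / 10 ≤ u := by linarith
  have hu0 : 0 < u := by linarith
  have hd : 0 < U - 23 / 25 := by linarith
  rcases le_total u (213 / 200) with hc | hc
  · rcases le_total u (23 / 25) with h | h
    · refine le_trans (mul_le_mul_of_nonneg_left ?_ (by norm_num)) (G2_L1 h1 hc)
      rw [div_le_iff₀ hd]
      have e : 0 ≤ (U - 213 / 200) * (23 / 25 - u) := mul_nonneg (by linarith) (by linarith)
      nlinarith [mul_nonneg (sub_nonneg.2 hc) e]
    · refine le_trans (mul_le_mul_of_nonneg_left ?_ (by norm_num)) (G2_le1 hu)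
      rw [div_le_div_iff₀ hd (by positivity)]
      have e : 116 / 100 * u ^ 2 * (U - u) ≤ U - 23 / 25 := by
        have k1 := num_b h hc
        have k2 : 116 / 100 * u ^ 2 * (138 / 100 - u) ≤ 138 / 100 - 23 / 25 := by
          nlinarith [mul_nonneg (sub_nonneg.2 h) (sub_nonneg.2 hc), sq_nonneg (u - 23 / 25),
            mul_nonneg (mul_nonneg (sub_nonneg.2 h) (sub_nonneg.2 hc)) (sub_nonneg.2 h)]
        -- linear in U: interpolate
        have k3 : 0 ≤ (138 / 100 - U) * (29 / 200 - 116 / 100 * u ^ 2 * (213 / 200 - u)) :=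
          mul_nonneg (by linarith) (by linarith)
        have k4 : 0 ≤ (U - 213 / 200) * (46 / 100 - 116 / 100 * u ^ 2 * (138 / 100 - u)) :=
          mul_nonneg (by linarith) (by linarith)
        nlinarith
      nlinarith [mul_nonneg (sub_nonneg.2 hc) (sub_nonneg.2 e)]
  · refine le_trans ?_ (G2_nonneg u)
    have : 116 / 100 * (U - u) * (213 / 200 - u) / (U - 23 / 25) ≤ 0 :=
      div_nonpos_of_nonpos_of_nonneg
        (mul_nonpos_of_nonneg_of_nonpos (by nlinarith) (by linarith)) hd.le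
    linarith

/-- `ψ(u)/u² ≥ 4 (c-u)(p-u)` for `u ≥ .935` -/
theorem G2_q {u : ℝ} (h1 : 187 / 200 ≤ u) (h2 : u ≤ 213 / 200) :
    19739 / 1000 * (4 * (213 / 200 - u) * (122 / 100 - u)) ≤ G2 u := by
  refine le_trans (mul_le_mul_of_nonneg_left ?_ (by norm_num)) (G2_le1 (by linarith))
  have hu0 : 0 < u := by linarith
  rw [le_div_iff₀ (by positivity)]
  have e : 4 * u ^ 2 * (122 / 100 - u) ≤ 1 := by
    nlinarith [mul_nonneg (sub_nonneg.2 h1) (sub_nonneg.2 h2), sq_nonneg (u - 187 / 200),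
      mul_nonneg (mul_nonneg (sub_nonneg.2 h1) (sub_nonneg.2 h2)) (sub_nonneg.2 h1)]
  nlinarith [mul_nonneg (sub_nonneg.2 h2) (sub_nonneg.2 e)]

/-- `ψ(u)/u² ≥ 8 (.0143 + (1-u)²)` for `u ≤ .935` -/
theorem G2_one {u : ℝ} (h1 : 50 / 69 ≤ u) (h2 : u ≤ 187 / 200) :
    19739 / 1000 * (8 * (143 / 10000 + (1 - u) ^ 2)) ≤ G2 u := by
  have hu : 7 / 10 ≤ u := by linarith
  have hu0 : 0 < u := by linarith
  rcases le_total u (23 / 25) with h | h
  · refine le_trans (mul_le_mul_of_nonneg_left ?_ (by norm_num)) (G2_le2 hu)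
    rw [le_div_iff₀ (by positivity)]
    nlinarith [mul_nonneg (sub_nonneg.2 h1) (sub_nonneg.2 h), sq_nonneg (u - 80 / 100),
      mul_nonneg (mul_nonneg (sub_nonneg.2 h1) (sub_nonneg.2 h)) (sq_nonneg (u - 80 / 100)),
      mul_nonneg (mul_nonneg (sub_nonneg.2 h1) (sub_nonneg.2 h)) (sub_nonneg.2 h1)]
  · refine le_trans (mul_le_mul_of_nonneg_left ?_ (by norm_num)) (G2_le1 hu)
    rw [le_div_iff₀ (by positivity)]
    nlinarith [mul_nonneg (sub_nonneg.2 h) (sub_nonneg.2 h2), sq_nonneg (u - 187 / 200),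
      mul_nonneg (mul_nonneg (sub_nonneg.2 h) (sub_nonneg.2 h2)) (sub_nonneg.2 h)]

/-- lemma L3 : a pair of opposite vertices of the cross polytope, `U ≤ 213/200` -/
theorem G2_L3 {U x : ℝ} (hU1 : 1 ≤ U) (hU2 : U ≤ 213 / 200) (hx : 0 ≤ x)
    (h1 : 50 / 69 ≤ U - x) :
    19739 / 1000 * (8 * ((213 / 200 - U) * (122 / 100 - U) + x ^ 2)) ≤
      G2 (U - x) + G2 (U + x) := by
  rcases le_total (U + x) (213 / 200) with hB | hB
  · have k1 := G2_q (u := U - x) (by linarith) (by linarith)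
    have k2 := G2_q (u := U + x) (by linarith) (by linarith)
    nlinarith
  · have k2 := G2_nonneg (U + x)
    have kc := G2_L1 h1 (by linarith : U - x ≤ 213 / 200)
    obtain ⟨A, hA⟩ : ∃ A, A = U - x := ⟨_, rfl⟩
    have hx' : x = U - A := by linarith
    rw [← hA] at h1 kc ⊢
    have hB' : 213 / 200 ≤ 2 * U - A := by linarith
    subst hx'
    rcases le_total A (187 / 200) with h | h
    · have k1 := G2_one h1 h
      -- interpolate between `U = 1` and `U = c`
      have e : (13 / 200) * ((213 / 200 - U) * (122 / 100 - U) + (U - A) ^ 2) ≤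
          (213 / 200 - U) * (143 / 10000 + (1 - A) ^ 2) + (U - 1) * (213 / 200 - A) ^ 2 := by
        nlinarith [mul_nonneg (sub_nonneg.2 hU1) (sub_nonneg.2 hU2)]
      have e1 := mul_nonneg (sub_nonneg.2 hU2) (sub_nonneg.2 k1)
      have e2 := mul_nonneg (sub_nonneg.2 hU1) (sub_nonneg.2 kc)
      nlinarith
    · have hA2 : A ≤ 213 / 200 := by linarith
      have k1 := G2_q h hA2
      rcases eq_or_lt_of_le hA2 with h3 | h3
      · have hU : U = 213 / 200 := by linarith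
        subst h3
        rw [hU]
        have := G2_nonneg (213 / 200)
        nlinarith
      -- interpolate between `U = (A + c)/2` and `U = c`
      have hm : 0 < (213 / 200 - A) / 2 := by linarith
      have hn : 0 ≤ U - (A + 213 / 200) / 2 := by linarith
      have e : ((213 / 200 - A) / 2) * ((213 / 200 - U) * (122 / 100 - U) + (U - A) ^ 2) ≤
          (213 / 200 - U) * ((213 / 200 - A) * (122 / 100 - A) / 2) +
            (U - (A + 213 / 200) / 2) * (213 / 200 - A) ^ 2 := by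
        nlinarith [mul_nonneg (sub_nonneg.2 hU2) hn, mul_nonneg (mul_nonneg (sub_nonneg.2 hU2) hn) hm.le]
      have e1 := mul_nonneg (sub_nonneg.2 hU2) (sub_nonneg.2 k1)
      have e2 := mul_nonneg hn (sub_nonneg.2 kc)
      have e3 : ((213 / 200 - A) / 2) *
          (19739 / 1000 * (8 * ((213 / 200 - U) * (122 / 100 - U) + (U - A) ^ 2))) ≤
          ((213 / 200 - A) / 2) * G2 A := by
        nlinarith
      have e4 := le_of_mul_le_mul_left e3 hm
      linarith

/-- `w₀` alone, `r ≥ 1.38` -/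
theorem G2_big {r : ℝ} (h : 138 / 100 ≤ r) : 18736 / 1000 ≤ G2 (1 / r) := by
  have hr : 0 < r := by linarith
  rcases le_total (7 / 10) (1 / r) with h1 | h1
  · refine le_trans ?_ (G2_le2 h1)
    have e : (1847 / 1000 - 185 / 100 * (1 / r)) / (1 / r) ^ 2 = 1847 / 1000 * r ^ 2 - 185 / 100 * r := by
      field_simp
    rw [e]
    nlinarith
  · unfold G2 psi2
    rw [one_div_one_div]
    have h2 : max (1 / r) (7 / 10 : ℝ) = 7 / 10 := max_eq_right h1
    rw [h2]
    have h3 : max (0 : ℝ) (213 / 200 - 7 / 10) = 73 / 200 := by norm_num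
    have h4 : max (0 : ℝ) (23 / 25 - 7 / 10) = 11 / 50 := by norm_num
    rw [h3, h4]
    have h5 : 10 / 7 ≤ r := by
      rw [div_le_div_iff₀ hr (by norm_num)] at h1
      linarith
    nlinarith

/-- `w₀` for `r ≤ 1.38`, first form -/
theorem G2_w1 {r : ℝ} (h1 : 1 ≤ r) (h : r ≤ 138 / 100) :
    19739 / 1000 * (213 / 200 * r ^ 2 - r) ≤ G2 (1 / r) := by
  have hr : 0 < r := by linarith
  have h2 : 7 / 10 ≤ 1 / r := by rw [div_le_div_iff₀ (by norm_num) hr]; linarith
  refine le_trans (le_of_eq ?_) (G2_le1 h2)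
  field_simp

/-- `w₀` for `r ≤ 1.38`, second form -/
theorem G2_w2 {r : ℝ} (h1 : 1 ≤ r) (h : r ≤ 138 / 100) :
    19739 / 1000 * (1847 / 1000 * r ^ 2 - 185 / 100 * r) ≤ G2 (1 / r) := by
  have hr : 0 < r := by linarith
  have h2 : 7 / 10 ≤ 1 / r := by rw [div_le_div_iff₀ (by norm_num) hr]; linarith
  refine le_trans (le_of_eq ?_) (G2_le2 h2)
  field_simp

/-- total for region I (cross polytope, `U ≤ c`) -/
theorem tot_I {r : ℝ} (h1 : 1 ≤ r) (h : r ≤ 138 / 100) :
    18736 / 1000 ≤ G2 (1 / r) +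
      19739 / 1000 * (1828 / 100 / r - 9 / r ^ 2 - 83844 / 10000) := by
  have hr : 0 < r := by linarith
  rcases le_total r (11 / 10) with h2 | h2
  · have k := G2_w1 h1 h
    have e : 18736 / 19739 ≤ 213 / 200 * r ^ 2 - r + (1828 / 100 / r - 9 / r ^ 2 - 83844 / 10000) := by
      have e1 : 213 / 200 * r ^ 2 - r + (1828 / 100 / r - 9 / r ^ 2 - 83844 / 10000) - 18736 / 19739 =
          (213 / 200 * r ^ 4 - r ^ 3 + 1828 / 100 * r - 9 -
            (83844 / 10000 + 18736 / 19739) * r ^ 2) / r ^ 2 := by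
        field_simp
        ring
      have e2 : 0 ≤ (213 / 200 * r ^ 4 - r ^ 3 + 1828 / 100 * r - 9 -
            (83844 / 10000 + 18736 / 19739) * r ^ 2) / r ^ 2 := by
        apply div_nonneg _ (by positivity)
        obtain ⟨t, rfl⟩ : ∃ t, r = 1 + t := ⟨r - 1, by ring⟩
        have ht : 0 ≤ t := by linarith
        have ht2 : t ≤ 1 / 10 := by linarith
        nlinarith [mul_nonneg ht (sub_nonneg.2 ht2), pow_nonneg ht 3, pow_nonneg ht 4]
      linarith
    linarith
  · have k := G2_w2 h1 h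
    have e : 18736 / 19739 ≤ 1847 / 1000 * r ^ 2 - 185 / 100 * r +
        (1828 / 100 / r - 9 / r ^ 2 - 83844 / 10000) := by
      have e1 : 1847 / 1000 * r ^ 2 - 185 / 100 * r +
          (1828 / 100 / r - 9 / r ^ 2 - 83844 / 10000) - 18736 / 19739 =
          (1847 / 1000 * r ^ 4 - 185 / 100 * r ^ 3 + 1828 / 100 * r - 9 -
            (83844 / 10000 + 18736 / 19739) * r ^ 2) / r ^ 2 := by
        field_simp
        ring
      have e2 : 0 ≤ (1847 / 1000 * r ^ 4 - 185 / 100 * r ^ 3 + 1828 / 100 * r - 9 -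
            (83844 / 10000 + 18736 / 19739) * r ^ 2) / r ^ 2 := by
        apply div_nonneg _ (by positivity)
        obtain ⟨t, rfl⟩ : ∃ t, r = 11 / 10 + t := ⟨r - 11 / 10, by ring⟩
        have ht : 0 ≤ t := by linarith
        have ht2 : t ≤ 28 / 100 := by linarith
        nlinarith [mul_nonneg ht (sub_nonneg.2 ht2), pow_nonneg ht 3, pow_nonneg ht 4,
          mul_nonneg (mul_nonneg ht (sub_nonneg.2 ht2)) ht]
      linarith
    linarith

/-- total for region II and for the simplex -/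
theorem tot_II {r : ℝ} (h1 : 1 ≤ r) (h : r ≤ 138 / 100) :
    18736 / 1000 ≤ G2 (1 / r) +
      19739 / 1000 * (8 * ((213 / 100 * r - 1 - r ^ 2) / r ^ 2)) := by
  have hr : 0 < r := by linarith
  rcases le_total r (115 / 100) with h2 | h2
  · have k := G2_w1 h1 h
    have e : 18736 / 19739 ≤ 213 / 200 * r ^ 2 - r + 8 * ((213 / 100 * r - 1 - r ^ 2) / r ^ 2) := by
      have e1 : 213 / 200 * r ^ 2 - r + 8 * ((213 / 100 * r - 1 - r ^ 2) / r ^ 2) - 18736 / 19739 =
          (213 / 200 * r ^ 4 - r ^ 3 + 8 * (213 / 100 * r - 1 - r ^ 2) - 18736 / 19739 * r ^ 2)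
            / r ^ 2 := by
        field_simp
      have e2 : 0 ≤ (213 / 200 * r ^ 4 - r ^ 3 + 8 * (213 / 100 * r - 1 - r ^ 2) -
          18736 / 19739 * r ^ 2) / r ^ 2 := by
        apply div_nonneg _ (by positivity)
        obtain ⟨t, rfl⟩ : ∃ t, r = 1 + t := ⟨r - 1, by ring⟩
        have ht : 0 ≤ t := by linarith
        have ht2 : t ≤ 15 / 100 := by linarith
        nlinarith [mul_nonneg ht (sub_nonneg.2 ht2), pow_nonneg ht 3, pow_nonneg ht 4]
      linarith
    linarith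
  · have k := G2_w2 h1 h
    have e : 18736 / 19739 ≤ 1847 / 1000 * r ^ 2 - 185 / 100 * r +
        8 * ((213 / 100 * r - 1 - r ^ 2) / r ^ 2) := by
      have e1 : 1847 / 1000 * r ^ 2 - 185 / 100 * r +
          8 * ((213 / 100 * r - 1 - r ^ 2) / r ^ 2) - 18736 / 19739 =
          (1847 / 1000 * r ^ 4 - 185 / 100 * r ^ 3 + 8 * (213 / 100 * r - 1 - r ^ 2) -
            18736 / 19739 * r ^ 2) / r ^ 2 := by
        field_simp
      have e2 : 0 ≤ (1847 / 1000 * r ^ 4 - 185 / 100 * r ^ 3 + 8 * (213 / 100 * r - 1 - r ^ 2) -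
            18736 / 19739 * r ^ 2) / r ^ 2 := by
        apply div_nonneg _ (by positivity)
        obtain ⟨t, rfl⟩ : ∃ t, r = 115 / 100 + t := ⟨r - 115 / 100, by ring⟩
        have ht : 0 ≤ t := by linarith
        have ht2 : t ≤ 23 / 100 := by linarith
        nlinarith [mul_nonneg ht (sub_nonneg.2 ht2), pow_nonneg ht 3, pow_nonneg ht 4,
          mul_nonneg (mul_nonneg ht (sub_nonneg.2 ht2)) ht]
      linarith
    linarith

/-- region I, algebra: minimum over `U` -/
theorem alg_I {r U : ℝ} (hr : 0 < r) :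
    1828 / 100 / r - 9 / r ^ 2 - 83844 / 10000 ≤
      64 * ((213 / 200 - U) * (122 / 100 - U)) + 8 * ((2 * r * U - 1 - r ^ 2) / r ^ 2) := by
  have e : 64 * ((213 / 200 - U) * (122 / 100 - U)) + 8 * ((2 * r * U - 1 - r ^ 2) / r ^ 2) =
      64 * (213 / 200 * (122 / 100)) - 14624 / 100 * U + 64 * U ^ 2 + 16 * U * (1 / r) -
        8 * (1 / r) ^ 2 - 8 := by
    field_simp
    ring
  rw [e]
  have e2 : 1828 / 100 / r - 9 / r ^ 2 - 83844 / 10000 =
      1828 / 100 * (1 / r) - 9 * (1 / r) ^ 2 - 83844 / 10000 := by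
    field_simp
  rw [e2]
  generalize 1 / r = v
  nlinarith [sq_nonneg (8 * U - (14624 / 100 - 16 * v) / 16)]

/-- region II, algebra -/
theorem alg_II {r U s : ℝ} (h1 : 1 ≤ r) (hU : U = (1 + s + r ^ 2) / (2 * r)) (hU1 : 213 / 200 ≤ U) :
    8 * ((213 / 100 * r - 1 - r ^ 2) / r ^ 2) ≤
      116 / 100 / (U - 23 / 25) * (s / r ^ 2 - (U - 213 / 200) / r) := by
  have hr : 0 < r := by linarith
  have hd : 0 < U - 23 / 25 := by linarith
  have hs : s = 2 * r * U - 1 - r ^ 2 := by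
    rw [hU]; field_simp; ring
  have e1 : s / r ^ 2 - (U - 213 / 200) / r = (s - r * (U - 213 / 200)) / r ^ 2 := by
    field_simp
  rw [e1, ← mul_div_assoc, ← mul_div_assoc]
  apply div_le_div_of_nonneg_right _ (by positivity)
  have e3 : 116 / 100 / (U - 23 / 25) * (s - r * (U - 213 / 200)) =
      116 / 100 * (s - r * (U - 213 / 200)) / (U - 23 / 25) := by ring
  rw [e3, le_div_iff₀ hd, hs]
  have k1 : 0 ≤ (U - 213 / 200) := by linarith
  have k2 : 213 / 100 * r - 1 - r ^ 2 ≤ 13 / 100 * r := by nlinarith [sq_nonneg (r - 1)]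
  nlinarith [mul_nonneg k1 (sub_nonneg.2 k2), mul_nonneg k1 hr.le]

end Pool.Agent.Helper10.Lor
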