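import Pool.Agent.Helper10.Lor.Defs

set_option autoImplicit false

/-!
# Auxiliary definitions shared by the modules (not part of the final statement)
-/

namespace Pool.Agent.Helper10.Lor

open MeasureTheory

/-- hyperbolic volume `r^{-(n+1)} dz dr` on the upper half-space -/
noncomputable def hyp (n : ℕ) : Measure (Pt n) :=
  (volume.restrict (UH n)).withDensity fun p => ENNReal.ofReal ((p.2 ^ (n + 1))⁻¹)

/-- squared hyperbolic norm of the gradient -/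
noncomputable def gsq {n : ℕ} (f : Pt n → ℂ) (p : Pt n) : ℝ :=
  p.2 ^ 2 * (∑ k : Fin n, ‖pd (dir k) f p‖ ^ 2 + ‖pd er f p‖ ^ 2)

/-- bilinear hyperbolic gradient product -/
noncomputable def gdot {n : ℕ} (f h : Pt n → ℂ) (p : Pt n) : ℂ :=
  (p.2 : ℂ) ^ 2 * (∑ k : Fin n, pd (dir k) f p * pd (dir k) h p + pd er f p * pd er h p)

/-- weak form of the eigenvalue equation `lap u = - lam u` on the upper half-space -/
def WeakEig {n : ℕ} (lam : ℂ) (u : Pt n → ℂ) : Prop :=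
  ∀ φ : Pt n → ℂ, ContDiff ℝ 1 φ → HasCompactSupport φ → tsupport φ ⊆ UH n →
    ∫ p, gdot u φ p ∂(hyp n) = lam * ∫ p, u p * φ p ∂(hyp n)

/-- `L` is an even lattice with basis `b` -/
structure EvenLat {n : ℕ} (L : AddSubgroup (E n)) (b : Fin n → E n) : Prop where
  li : LinearIndependent ℝ b
  mem : ∀ x : E n, x ∈ L ↔ ∃ m : Fin n → ℤ, x = ∑ i, (m i : ℝ) • b i
  even : ∀ x ∈ L, ∃ m : ℤ, ‖x‖ ^ 2 = 2 * m

/-- every orbit meets the Siegel-type set `‖z‖ ≤ C, a ≤ r` -/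
def Covers {n : ℕ} (L : AddSubgroup (E n)) (C a : ℝ) : Prop :=
  ∀ p ∈ UH n, ∃ γ ∈ OL L, ‖(act γ p).1‖ ≤ C ∧ a ≤ (act γ p).2

/-- `κ` is a `C¹` partition of unity for `OL L` supported in a Siegel-type set -/
structure Kap {n : ℕ} (L : AddSubgroup (E n)) (κ : Pt n → ℝ) (C a : ℝ) : Prop where
  pos : 0 < a
  smooth : ContDiff ℝ 1 κ
  nonneg : ∀ p, 0 ≤ κ p
  supp : ∀ p, κ p ≠ 0 → ‖p.1‖ ≤ C ∧ a ≤ p.2
  sum : ∀ p ∈ UH n, HasSum (fun γ : OL L => κ (act γ p)) 1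

/-- a finite family of `C²` functions permuted by `OL L` -/
structure Sys {n : ℕ} (L : AddSubgroup (E n)) (ι : Type) (u : ι → Pt n → ℂ) : Prop where
  smooth : ∀ i, ContDiffOn ℝ 2 (u i) (UH n)
  perm : ∀ γ ∈ OL L, ∃ σ : Equiv.Perm ι, ∀ i, ∀ p ∈ UH n, u i (act γ p) = u (σ i) p

/-- the isotropic vector belonging to the cusp `∞` -/
def w0 {n : ℕ} : LV n := (0, 1, 0)

/-- the isotropic lattice vectors belonging to the cusps (orbit of `w0`) -/
def Orb {n : ℕ} (L : AddSubgroup (E n)) : Set (LV n) := {w | ∃ γ ∈ OL L, w = γ w0}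

/-- inverse height of `p` with respect to the cusp vector `w` -/
noncomputable def uval {n : ℕ} (w : LV n) (p : Pt n) : ℝ := -form (vec p) w

/-- the weight: `ψ(r) = c - 1/r` truncated at `0` -/
noncomputable def psi (c : ℝ) (r : ℝ) : ℝ := max 0 (c - 1 / r)

/-- integral over the cell `{z = ∑ xᵢ bᵢ, x ∈ [0,1]ⁿ}` at height `r`, of a nonnegative function -/
noncomputable def cellInt {n : ℕ} (b : Fin n → E n) (F : Pt n → ENNReal) (r : ℝ) : ENNReal :=
  ∫⁻ x in Set.Icc (0 : Fin n → ℝ) 1, F (∑ i, x i • b i, r)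

/-- a nonzero vector which has integral inner product with all `b i` has squared norm `≥ m` -/
def DualMin {n : ℕ} (b : Fin n → E n) (m : ℝ) : Prop :=
  ∀ ξ : E n, ξ ≠ 0 → (∀ i, ∃ k : ℤ, inner ℝ ξ (b i) = k) → m ≤ ‖ξ‖ ^ 2

end Pool.Agent.Helper10.Lor
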