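import Pool.Agent.Helper10.Lor.Lib

set_option autoImplicit false

/-!
# The weight function for the second certificate of `E₈`
-/

namespace Pool.Agent.Helper10.Lor

/-- the weight, as a function of `u = 1 / r` (constant for `u ≤ 7 / 10`) -/
noncomputable def psi2 (r : ℝ) : ℝ :=
  max 0 (213 / 200 - max (1 / r) (7 / 10)) + 17 / 20 * max 0 (23 / 25 - max (1 / r) (7 / 10))

theorem psi2_nonneg (r : ℝ) : 0 ≤ psi2 r := by
  unfold psi2
  have h1 : (0 : ℝ) ≤ max 0 (213 / 200 - max (1 / r) (7 / 10)) := le_max_left _ _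
  have h2 : (0 : ℝ) ≤ max 0 (23 / 25 - max (1 / r) (7 / 10)) := le_max_left _ _
  positivity

theorem measurable_psi2 : Measurable psi2 := by
  unfold psi2
  fun_prop

/-- the summand -/
noncomputable def G2 (u : ℝ) : ℝ := 19739 / 1000 * (1 / u) ^ 2 * psi2 (1 / u)

theorem G2_nonneg (u : ℝ) : 0 ≤ G2 u := by
  unfold G2
  have := psi2_nonneg (1 / u)
  positivity

/-- first lower bound -/
theorem G2_le1 {u : ℝ} (hu : 7 / 10 ≤ u) : 19739 / 1000 * ((213 / 200 - u) / u ^ 2) ≤ G2 u := by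
  unfold G2 psi2
  rw [one_div_one_div, max_eq_left hu]
  have hu0 : 0 < u := by linarith
  have h1 : 213 / 200 - u ≤ max 0 (213 / 200 - u) := le_max_right _ _
  have h2 : (0 : ℝ) ≤ max 0 (23 / 25 - u) := le_max_left _ _
  have h3 : 0 ≤ 19739 / 1000 * (1 / u) ^ 2 := by positivity
  calc 19739 / 1000 * ((213 / 200 - u) / u ^ 2)
      = 19739 / 1000 * (1 / u) ^ 2 * (213 / 200 - u) := by
        field_simp
    _ ≤ _ := mul_le_mul_of_nonneg_left (by linarith) h3

/-- second lower bound -/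
theorem G2_le2 {u : ℝ} (hu : 7 / 10 ≤ u) :
    19739 / 1000 * ((1847 / 1000 - 185 / 100 * u) / u ^ 2) ≤ G2 u := by
  unfold G2 psi2
  rw [one_div_one_div, max_eq_left hu]
  have hu0 : 0 < u := by linarith
  have h1 : 213 / 200 - u ≤ max 0 (213 / 200 - u) := le_max_right _ _
  have h2 : 23 / 25 - u ≤ max 0 (23 / 25 - u) := le_max_right _ _
  have h3 : 0 ≤ 19739 / 1000 * (1 / u) ^ 2 := by positivity
  calc 19739 / 1000 * ((1847 / 1000 - 185 / 100 * u) / u ^ 2)
      = 19739 / 1000 * (1 / u) ^ 2 * (1847 / 1000 - 185 / 100 * u) := by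
        field_simp
    _ ≤ _ := mul_le_mul_of_nonneg_left (by linarith) h3

end Pool.Agent.Helper10.Lor
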